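import Mathlib

set_option autoImplicit false

/-!
# A small programming language with logarithmic cost
-/

namespace Pool.Agent.Lib.MP_711ea9_lc

/-- Arithmetic expressions: constants, variables, entries of arrays, sums, truncated differences,
quotients and remainders of natural numbers. There is no multiplication. -/
inductive Expr
  | const (c : ℕ)
  | var (x : ℕ)
  | get (a : ℕ) (e : Expr)
  | add (e f : Expr)
  | sub (e f : Expr)
  | div (e f : Expr)
  | mod (e f : Expr)

/-- Programs: do nothing, assign to a variable, assign to an entry of an array, composition,
branching on whether an expression is nonzero, and a loop which is repeated as many times as the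
value which its expression has before the loop is entered. -/
inductive Cmd
  | skip
  | set (x : ℕ) (e : Expr)
  | put (a : ℕ) (i e : Expr)
  | seq (c d : Cmd)
  | ite (e : Expr) (c d : Cmd)
  | loop (e : Expr) (c : Cmd)

/-- The memory: variables and arrays of natural numbers. -/
structure Store where
  /-- values of the variables -/
  var : ℕ → ℕ
  /-- entries of the arrays -/
  arr : ℕ → ℕ → ℕ

namespace Expr

/-- The value of an expression. -/
def eval (σ : Store) : Expr → ℕ
  | const c => c
  | var x => σ.var x
  | get a e => σ.arr a (e.eval σ)
  | add e f => e.eval σ + f.eval σ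
  | sub e f => e.eval σ - f.eval σ
  | div e f => e.eval σ / f.eval σ
  | mod e f => e.eval σ % f.eval σ

/-- The cost of evaluating an expression: every node of the expression is charged one plus the
number of binary digits of its value. -/
def cost (σ : Store) : Expr → ℕ
  | const c => 1 + Nat.size c
  | var x => 1 + Nat.size (σ.var x)
  | get a e => e.cost σ + (1 + Nat.size (σ.arr a (e.eval σ)))
  | add e f => e.cost σ + f.cost σ + (1 + Nat.size (e.eval σ + f.eval σ))
  | sub e f => e.cost σ + f.cost σ + (1 + Nat.size (e.eval σ - f.eval σ))
  | div e f => e.cost σ + f.cost σ + (1 + Nat.size (e.eval σ / f.eval σ))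
  | mod e f => e.cost σ + f.cost σ + (1 + Nat.size (e.eval σ % f.eval σ))

end Expr

namespace Cmd

/-- The memory after the program has been executed. -/
def exec : Cmd → Store → Store
  | skip => fun σ => σ
  | set x e => fun σ => ⟨Function.update σ.var x (e.eval σ), σ.arr⟩
  | put a i e => fun σ =>
      ⟨σ.var, Function.update σ.arr a (Function.update (σ.arr a) (i.eval σ) (e.eval σ))⟩
  | seq c d => fun σ => d.exec (c.exec σ)
  | ite e c d => fun σ => if e.eval σ ≠ 0 then c.exec σ else d.exec σ
  | loop e c => fun σ => (c.exec)^[e.eval σ] σ

/-- The running time of the program: the total cost of all expressions which are evaluated, plus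
one for every executed command, plus, for every pass through a loop, one plus the number of binary
digits of the number of passes. -/
def cost : Cmd → Store → ℕ
  | skip => fun _ => 1
  | set _ e => fun σ => 1 + e.cost σ
  | put _ i e => fun σ => 1 + i.cost σ + e.cost σ
  | seq c d => fun σ => c.cost σ + d.cost (c.exec σ)
  | ite e c d => fun σ => 1 + e.cost σ + (if e.eval σ ≠ 0 then c.cost σ else d.cost σ)
  | loop e c => fun σ => 1 + e.cost σ +
      ∑ i ∈ Finset.range (e.eval σ), (1 + Nat.size (e.eval σ) + c.cost ((c.exec)^[i] σ))

end Cmd

end Pool.Agent.Lib.MP_711ea9_lc
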