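import Pool.Agent.Lib.MP_711ea9_lc.Lang

set_option autoImplicit false

/-!
# Reasoning about programs
-/

namespace Pool.Agent.Lib.MP_711ea9_lc

namespace Expr

/-- Number of nodes, constants being charged their length. -/
def size : Expr → ℕ
  | const c => 1 + Nat.size c
  | var _ => 1
  | get _ e => e.size + 1
  | add e f => e.size + f.size + 1
  | sub e f => e.size + f.size + 1
  | div e f => e.size + f.size + 1
  | mod e f => e.size + f.size + 1

end Expr

/-- All entries of the memory have at most `B` binary digits. -/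
def Bdd (σ : Store) (B : ℕ) : Prop := (∀ x, σ.var x < 2 ^ B) ∧ (∀ a i, σ.arr a i < 2 ^ B)

lemma Bdd.mono {σ : Store} {B B' : ℕ} (h : Bdd σ B) (hB : B ≤ B') : Bdd σ B' :=
  ⟨fun x => (h.1 x).trans_le (Nat.pow_le_pow_right (by norm_num) hB),
    fun a i => (h.2 a i).trans_le (Nat.pow_le_pow_right (by norm_num) hB)⟩

lemma Expr.bound {σ : Store} {B : ℕ} (h : Bdd σ B) (e : Expr) :
    e.eval σ < 2 ^ (B + e.size) ∧ e.cost σ ≤ e.size * (B + e.size + 1) := by
  have hlift : ∀ {v m : ℕ} (k : ℕ), v < 2 ^ (B + m) → m ≤ k → v < 2 ^ (B + k) := by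
    intro v m k h hk
    exact h.trans_le (Nat.pow_le_pow_right (by norm_num) (by omega))
  have hnode : ∀ {v k1 k2 c1 c2 : ℕ}, v < 2 ^ (B + (k1 + k2 + 1)) →
      c1 ≤ k1 * (B + k1 + 1) → c2 ≤ k2 * (B + k2 + 1) →
      c1 + c2 + (1 + Nat.size v) ≤ (k1 + k2 + 1) * (B + (k1 + k2 + 1) + 1) := by
    intro v k1 k2 c1 c2 hv h1 h2
    have h3 : Nat.size v ≤ B + (k1 + k2 + 1) := Nat.size_le.2 hv
    have h4 : k1 * (B + k1 + 1) ≤ k1 * (B + (k1 + k2 + 1) + 1) :=
      Nat.mul_le_mul_left _ (by omega)
    have h5 : k2 * (B + k2 + 1) ≤ k2 * (B + (k1 + k2 + 1) + 1) :=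
      Nat.mul_le_mul_left _ (by omega)
    calc c1 + c2 + (1 + Nat.size v) ≤ k1 * (B + (k1 + k2 + 1) + 1) +
          k2 * (B + (k1 + k2 + 1) + 1) + (B + (k1 + k2 + 1) + 1) := by omega
      _ = _ := by ring
  induction e with
  | const c =>
    simp only [Expr.eval, Expr.size, Expr.cost]
    constructor
    · calc c < 2 ^ Nat.size c := Nat.lt_size_self c
        _ ≤ _ := Nat.pow_le_pow_right (by norm_num) (by omega)
    · exact Nat.le_mul_of_pos_right _ (by omega)
  | var x =>
    simp only [Expr.eval, Expr.size, Expr.cost]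
    have h1 := h.1 x
    constructor
    · exact hlift (m := 0) 1 (by simpa using h1) (by omega)
    · have : Nat.size (σ.var x) ≤ B := Nat.size_le.2 h1
      omega
  | get a e ih =>
    simp only [Expr.eval, Expr.size, Expr.cost]
    have h1 := h.2 a (e.eval σ)
    refine ⟨hlift (m := 0) _ (by simpa using h1) (by omega), ?_⟩
    have h2 := hnode (v := σ.arr a (e.eval σ)) (k1 := e.size) (k2 := 0) (c1 := e.cost σ)
      (c2 := 0) (hlift (m := 0) _ (by simpa using h1) (by omega)) ih.2 (by simp)
    simpa using h2
  | add e f ihe ihf =>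
    simp only [Expr.eval, Expr.size, Expr.cost]
    have h1 : e.eval σ + f.eval σ < 2 ^ (B + (e.size + f.size + 1)) := by
      have h2 := hlift (e.size + f.size) ihe.1 (by omega)
      have h3 := hlift (e.size + f.size) ihf.1 (by omega)
      have : 2 ^ (B + (e.size + f.size + 1)) = 2 * 2 ^ (B + (e.size + f.size)) := by ring
      omega
    exact ⟨h1, hnode h1 ihe.2 ihf.2⟩
  | sub e f ihe ihf =>
    simp only [Expr.eval, Expr.size, Expr.cost]
    have h1 : e.eval σ - f.eval σ < 2 ^ (B + (e.size + f.size + 1)) :=
      (Nat.sub_le _ _).trans_lt (hlift _ ihe.1 (by omega))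
    exact ⟨h1, hnode h1 ihe.2 ihf.2⟩
  | div e f ihe ihf =>
    simp only [Expr.eval, Expr.size, Expr.cost]
    have h1 : e.eval σ / f.eval σ < 2 ^ (B + (e.size + f.size + 1)) :=
      (Nat.div_le_self _ _).trans_lt (hlift _ ihe.1 (by omega))
    exact ⟨h1, hnode h1 ihe.2 ihf.2⟩
  | mod e f ihe ihf =>
    simp only [Expr.eval, Expr.size, Expr.cost]
    have h1 : e.eval σ % f.eval σ < 2 ^ (B + (e.size + f.size + 1)) :=
      (Nat.mod_le _ _).trans_lt (hlift _ ihe.1 (by omega))
    exact ⟨h1, hnode h1 ihe.2 ihf.2⟩

namespace Cmd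

/-- Number of elementary steps. -/
def steps : Cmd → Store → ℕ
  | skip => fun _ => 1
  | set _ e => fun _ => 1 + e.size
  | put _ i e => fun _ => 1 + i.size + e.size
  | seq c d => fun σ => c.steps σ + d.steps (c.exec σ)
  | ite e c d => fun σ => 1 + e.size + (if e.eval σ ≠ 0 then c.steps σ else d.steps σ)
  | loop e c => fun σ => 1 + e.size +
      ∑ i ∈ Finset.range (e.eval σ), (1 + c.steps ((c.exec)^[i] σ))

/-- The logarithmic cost is at most quadratic in the number of elementary steps. -/
theorem bound (c : Cmd) : ∀ {σ : Store} {B : ℕ}, Bdd σ B →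
    Bdd (c.exec σ) (B + c.steps σ) ∧ c.cost σ ≤ c.steps σ * (B + c.steps σ + 1) := by
  induction c with
  | skip =>
    intro σ B h
    simp only [exec, steps, cost]
    exact ⟨h.mono (by omega), by omega⟩
  | set x e =>
    intro σ B h
    simp only [exec, steps, cost]
    obtain ⟨h1, h2⟩ := Expr.bound h e
    refine ⟨⟨?_, ?_⟩, ?_⟩
    · intro y
      by_cases hy : y = x
      · subst hy
        simp only [Function.update_self]
        exact h1.trans_le (Nat.pow_le_pow_right (by norm_num) (by omega))
      · simp only [ne_eq, hy, not_false_eq_true, Function.update_of_ne]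
        exact (h.1 y).trans_le (Nat.pow_le_pow_right (by norm_num) (by omega))
    · intro a i
      exact (h.2 a i).trans_le (Nat.pow_le_pow_right (by norm_num) (by omega))
    · nlinarith
  | put a i e =>
    intro σ B h
    simp only [exec, steps, cost]
    obtain ⟨h1, h2⟩ := Expr.bound h e
    obtain ⟨h3, h4⟩ := Expr.bound h i
    refine ⟨⟨?_, ?_⟩, ?_⟩
    · intro y
      exact (h.1 y).trans_le (Nat.pow_le_pow_right (by norm_num) (by omega))
    · intro a' i'
      by_cases ha : a' = a
      · subst ha
        simp only [Function.update_self]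
        by_cases hi : i' = i.eval σ
        · subst hi
          simp only [Function.update_self]
          exact h1.trans_le (Nat.pow_le_pow_right (by norm_num) (by omega))
        · simp only [ne_eq, hi, not_false_eq_true, Function.update_of_ne]
          exact (h.2 a' i').trans_le (Nat.pow_le_pow_right (by norm_num) (by omega))
      · simp only [ne_eq, ha, not_false_eq_true, Function.update_of_ne]
        exact (h.2 a' i').trans_le (Nat.pow_le_pow_right (by norm_num) (by omega))
    · nlinarith
  | seq c d ihc ihd =>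
    intro σ B h
    simp only [exec, steps, cost]
    obtain ⟨h1, h2⟩ := ihc h
    obtain ⟨h3, h4⟩ := ihd h1
    refine ⟨by rw [← Nat.add_assoc]; exact h3, ?_⟩
    nlinarith
  | ite e c d ihc ihd =>
    intro σ B h
    simp only [exec, steps, cost]
    obtain ⟨h0, h0'⟩ := Expr.bound h e
    by_cases he : e.eval σ ≠ 0
    · simp only [if_pos he]
      obtain ⟨h1, h2⟩ := ihc h
      refine ⟨h1.mono (by omega), ?_⟩
      nlinarith
    · simp only [if_neg he]
      obtain ⟨h1, h2⟩ := ihd h
      refine ⟨h1.mono (by omega), ?_⟩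
      nlinarith
  | loop e c ih =>
    intro σ B h
    simp only [exec, steps, cost]
    obtain ⟨h0, h0'⟩ := Expr.bound h e
    set N := e.eval σ with hN
    have key : ∀ k, Bdd ((c.exec)^[k] σ)
        (B + ∑ i ∈ Finset.range k, (1 + c.steps ((c.exec)^[i] σ))) := by
      intro k
      induction k with
      | zero => simpa using h
      | succ k ihk =>
        rw [Function.iterate_succ_apply', Finset.sum_range_succ]
        exact (ih ihk).1.mono (by omega)
    refine ⟨(key N).mono (by omega), ?_⟩
    set K := ∑ i ∈ Finset.range N, (1 + c.steps ((c.exec)^[i] σ)) with hK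
    have hsize : Nat.size N ≤ B + e.size := Nat.size_le.2 h0
    have hterm : ∀ i ∈ Finset.range N, 1 + Nat.size N + c.cost ((c.exec)^[i] σ) ≤
        (1 + c.steps ((c.exec)^[i] σ)) * (B + (1 + e.size + K) + 1) := by
      intro i hi
      have h1 := (ih (key i)).2
      have h2 : ∑ i ∈ Finset.range i, (1 + c.steps ((c.exec)^[i] σ)) +
          (1 + c.steps ((c.exec)^[i] σ)) ≤ K := by
        rw [← Finset.sum_range_succ, hK]
        apply Finset.sum_le_sum_of_subset
        intro j hj
        rw [Finset.mem_range] at hi hj ⊢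
        omega
      have h3 : c.steps ((c.exec)^[i] σ) *
          (B + ∑ i ∈ Finset.range i, (1 + c.steps ((c.exec)^[i] σ)) +
            c.steps ((c.exec)^[i] σ) + 1) ≤
          c.steps ((c.exec)^[i] σ) * (B + (1 + e.size + K) + 1) := by
        apply Nat.mul_le_mul_left
        omega
      have h4 : (1 + c.steps ((c.exec)^[i] σ)) * (B + (1 + e.size + K) + 1) =
        (B + (1 + e.size + K) + 1) + c.steps ((c.exec)^[i] σ) * (B + (1 + e.size + K) + 1) := by
        ring
      rw [h4]
      have h5 := h1.trans h3
      omega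
    have hsum := Finset.sum_le_sum hterm
    rw [← Finset.sum_mul, ← hK] at hsum
    have h6 : e.size * (B + e.size + 1) ≤ e.size * (B + (1 + e.size + K) + 1) :=
      Nat.mul_le_mul_left _ (by omega)
    calc 1 + e.cost σ + ∑ i ∈ Finset.range N, (1 + Nat.size N + c.cost ((c.exec)^[i] σ))
        ≤ 1 + e.size * (B + (1 + e.size + K) + 1) + K * (B + (1 + e.size + K) + 1) := by
          have := h0'.trans h6
          omega
      _ ≤ (1 + e.size + K) * (B + (1 + e.size + K) + 1) := by
          have : (1 + e.size + K) * (B + (1 + e.size + K) + 1) =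
            (B + (1 + e.size + K) + 1) + e.size * (B + (1 + e.size + K) + 1) +
              K * (B + (1 + e.size + K) + 1) := by ring
          rw [this]
          omega

/-- Variables which the program may change. -/
def wv : Cmd → ℕ → Bool
  | skip => fun _ => false
  | set x _ => fun y => Nat.beq x y
  | put _ _ _ => fun _ => false
  | seq c d => fun y => c.wv y || d.wv y
  | ite _ c d => fun y => c.wv y || d.wv y
  | loop _ c => fun y => c.wv y

/-- Arrays which the program may change. -/
def wa : Cmd → ℕ → Bool
  | skip => fun _ => false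
  | set _ _ => fun _ => false
  | put a _ _ => fun y => Nat.beq a y
  | seq c d => fun y => c.wa y || d.wa y
  | ite _ c d => fun y => c.wa y || d.wa y
  | loop _ c => fun y => c.wa y

lemma frame_var (c : Cmd) : ∀ (σ : Store) (y : ℕ), c.wv y = false →
    (c.exec σ).var y = σ.var y := by
  induction c with
  | skip => intro σ y _; rfl
  | set x e =>
    intro σ y h
    simp only [wv] at h
    have hne : y ≠ x := by
      rintro rfl
      simp at h
    simp [exec, Function.update_of_ne hne]
  | put a i e => intro σ y _; rfl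
  | seq c d ihc ihd =>
    intro σ y h
    simp only [wv, Bool.or_eq_false_iff] at h
    simp only [exec]
    rw [ihd _ _ h.2, ihc _ _ h.1]
  | ite e c d ihc ihd =>
    intro σ y h
    simp only [wv, Bool.or_eq_false_iff] at h
    simp only [exec]
    split_ifs
    · exact ihc _ _ h.1
    · exact ihd _ _ h.2
  | loop e c ih =>
    intro σ y h
    simp only [wv] at h
    simp only [exec]
    have key : ∀ k, ((c.exec)^[k] σ).var y = σ.var y := by
      intro k
      induction k with
      | zero => rfl
      | succ k ihk => rw [Function.iterate_succ_apply', ih _ _ h, ihk]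
    exact key _

lemma frame_arr (c : Cmd) : ∀ (σ : Store) (y : ℕ), c.wa y = false →
    (c.exec σ).arr y = σ.arr y := by
  induction c with
  | skip => intro σ y _; rfl
  | set x e => intro σ y h; rfl
  | put a i e =>
    intro σ y h
    simp only [wa] at h
    have hne : y ≠ a := by
      rintro rfl
      simp at h
    simp [exec, Function.update_of_ne hne]
  | seq c d ihc ihd =>
    intro σ y h
    simp only [wa, Bool.or_eq_false_iff] at h
    simp only [exec]
    rw [ihd _ _ h.2, ihc _ _ h.1]
  | ite e c d ihc ihd =>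
    intro σ y h
    simp only [wa, Bool.or_eq_false_iff] at h
    simp only [exec]
    split_ifs
    · exact ihc _ _ h.1
    · exact ihd _ _ h.2
  | loop e c ih =>
    intro σ y h
    simp only [wa] at h
    simp only [exec]
    have key : ∀ k, ((c.exec)^[k] σ).arr y = σ.arr y := by
      intro k
      induction k with
      | zero => rfl
      | succ k ihk => rw [Function.iterate_succ_apply', ih _ _ h, ihk]
    exact key _

lemma exec_skip (σ : Store) : skip.exec σ = σ := rfl

lemma exec_seq (c d : Cmd) (σ : Store) : (seq c d).exec σ = d.exec (c.exec σ) := rfl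

lemma exec_set (x : ℕ) (e : Expr) (σ : Store) :
    (set x e).exec σ = ⟨Function.update σ.var x (e.eval σ), σ.arr⟩ := rfl

lemma exec_put (a : ℕ) (i e : Expr) (σ : Store) :
    (put a i e).exec σ =
      ⟨σ.var, Function.update σ.arr a (Function.update (σ.arr a) (i.eval σ) (e.eval σ))⟩ := rfl

lemma exec_ite_pos {e : Expr} {σ : Store} (h : e.eval σ ≠ 0) (c d : Cmd) :
    (ite e c d).exec σ = c.exec σ := if_pos h

lemma exec_ite_neg {e : Expr} {σ : Store} (h : e.eval σ = 0) (c d : Cmd) :
    (ite e c d).exec σ = d.exec σ := if_neg (by simpa using h)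

/-- The rule for loops. -/
lemma loop_rule {e : Expr} {c : Cmd} {σ : Store} {N : ℕ} (hN : e.eval σ = N)
    (I : ℕ → Store → Prop) (h0 : I 0 σ)
    (hs : ∀ i < N, ∀ τ : Store, (∀ x, c.wv x = false → τ.var x = σ.var x) →
      (∀ a, c.wa a = false → τ.arr a = σ.arr a) → I i τ → I (i + 1) (c.exec τ)) :
    I N ((loop e c).exec σ) := by
  simp only [exec]
  rw [hN]
  have key : ∀ k ≤ N, I k ((c.exec)^[k] σ) ∧
      (∀ x, c.wv x = false → ((c.exec)^[k] σ).var x = σ.var x) ∧
      (∀ a, c.wa a = false → ((c.exec)^[k] σ).arr a = σ.arr a) := by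
    intro k
    induction k with
    | zero => intro _; exact ⟨h0, fun _ _ => rfl, fun _ _ => rfl⟩
    | succ k ih =>
      intro hk
      obtain ⟨h1, h2, h3⟩ := ih (by omega)
      rw [Function.iterate_succ_apply']
      refine ⟨hs k (by omega) _ h2 h3 h1, ?_, ?_⟩
      · intro x hx; rw [frame_var _ _ _ hx, h2 x hx]
      · intro x hx; rw [frame_arr _ _ _ hx, h3 x hx]
  exact (key N le_rfl).1

/-- An upper bound for the number of steps if every loop is controlled by a variable whose value
`ρ x` does not change. -/
def bd (ρ : ℕ → ℕ) : Cmd → ℕ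
  | skip => 1
  | set _ e => 1 + e.size
  | put _ i e => 1 + i.size + e.size
  | seq c d => c.bd ρ + d.bd ρ
  | ite e c d => 1 + e.size + (c.bd ρ + d.bd ρ)
  | loop (.var x) c => 2 + ρ x * (1 + c.bd ρ)
  | loop _ _ => 0

/-- Every loop of the program is controlled by a variable satisfying `P`. -/
def lp (P : ℕ → Prop) : Cmd → Prop
  | skip => True
  | set _ _ => True
  | put _ _ _ => True
  | seq c d => c.lp P ∧ d.lp P
  | ite _ c d => c.lp P ∧ d.lp P
  | loop (.var x) c => P x ∧ c.lp P
  | loop _ _ => False

lemma steps_le (ρ : ℕ → ℕ) (P : ℕ → Prop) (c : Cmd) : ∀ (σ : Store), c.lp P →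
    (∀ x, P x → c.wv x = false) → (∀ x, P x → σ.var x = ρ x) → c.steps σ ≤ c.bd ρ := by
  induction c with
  | skip => intro σ _ _ _; simp [steps, bd]
  | set x e => intro σ _ _ _; simp [steps, bd]
  | put a i e => intro σ _ _ _; simp [steps, bd]
  | seq c d ihc ihd =>
    intro σ h1 h2 h3
    simp only [lp] at h1
    simp only [wv, Bool.or_eq_false_iff] at h2
    simp only [steps, bd]
    have h4 := ihc σ h1.1 (fun x hx => (h2 x hx).1) h3
    have h5 := ihd (c.exec σ) h1.2 (fun x hx => (h2 x hx).2)
      (fun x hx => by rw [frame_var _ _ _ (h2 x hx).1]; exact h3 x hx)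
    omega
  | ite e c d ihc ihd =>
    intro σ h1 h2 h3
    simp only [lp] at h1
    simp only [wv, Bool.or_eq_false_iff] at h2
    simp only [steps, bd]
    have h4 := ihc σ h1.1 (fun x hx => (h2 x hx).1) h3
    have h5 := ihd σ h1.2 (fun x hx => (h2 x hx).2) h3
    split_ifs <;> omega
  | loop e c ih =>
    intro σ h1 h2 h3
    cases e with
    | var x =>
      simp only [lp] at h1
      simp only [wv] at h2
      simp only [steps, bd, Expr.size, Expr.eval]
      have key : ∀ i, c.steps ((c.exec)^[i] σ) ≤ c.bd ρ := by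
        intro i
        apply ih _ h1.2 h2
        intro y hy
        have : ∀ k, ((c.exec)^[k] σ).var y = σ.var y := by
          intro k
          induction k with
          | zero => rfl
          | succ k ihk => rw [Function.iterate_succ_apply', frame_var _ _ _ (h2 y hy), ihk]
        rw [this, h3 y hy]
      have hsum : ∑ i ∈ Finset.range (σ.var x), (1 + c.steps ((c.exec)^[i] σ)) ≤
          ∑ i ∈ Finset.range (σ.var x), (1 + c.bd ρ) :=
        Finset.sum_le_sum (fun i _ => Nat.add_le_add_left (key i) 1)
      rw [Finset.sum_const, Finset.card_range, smul_eq_mul] at hsum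
      rw [h3 x h1.1] at hsum ⊢
      omega
    | const c => simp [lp] at h1
    | get a e => simp [lp] at h1
    | add e f => simp [lp] at h1
    | sub e f => simp [lp] at h1
    | div e f => simp [lp] at h1
    | mod e f => simp [lp] at h1

end Cmd

end Pool.Agent.Lib.MP_711ea9_lc
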