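import Pool.Agent.Lib.MP_711ea9_lc.Process

set_option autoImplicit false
set_option linter.unusedSectionVars false

/-!
# Burning families, critical guards, and the improvement step
-/

namespace Pool.Agent.Lib.MP_711ea9_lc

open Finset

section

variable {V : Type*} [Fintype V] [DecidableEq V] {G : SimpleGraph V}

/-- Reachability by steps along edges into `M`. -/
def Rch (G : SimpleGraph V) (M : Finset V) : V → V → Prop :=
  Relation.ReflTransGen (fun a b => G.Adj a b ∧ b ∈ M)

open scoped Classical in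
/-- The vertices reachable from `x` by steps into `M`. -/
noncomputable def comp (G : SimpleGraph V) (M : Finset V) (x : V) : Finset V :=
  univ.filter (fun y => Rch G M x y)

lemma mem_comp {M : Finset V} {x y : V} : y ∈ comp G M x ↔ Rch G M x y := by
  simp [comp]

lemma Rch.mono {M M' : Finset V} (h : M ⊆ M') {x y : V} (hxy : Rch G M x y) : Rch G M' x y := by
  induction hxy with
  | refl => exact Relation.ReflTransGen.refl
  | tail _ h2 ih => exact Relation.ReflTransGen.tail ih ⟨h2.1, h h2.2⟩

lemma self_mem_comp {M : Finset V} {x : V} : x ∈ comp G M x := by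
  rw [mem_comp]; exact Relation.ReflTransGen.refl

lemma comp_mem_or {M : Finset V} {x y : V} (h : y ∈ comp G M x) : y = x ∨ y ∈ M := by
  rw [mem_comp] at h
  rcases Relation.ReflTransGen.cases_tail h with h | ⟨c, _, h1⟩
  · exact Or.inl h
  · exact Or.inr h1.2

lemma comp_step {M : Finset V} {x y z : V} (h : y ∈ comp G M x) (hyz : G.Adj y z) (hz : z ∈ M) :
    z ∈ comp G M x := by
  rw [mem_comp] at h ⊢
  exact Relation.ReflTransGen.tail h ⟨hyz, hz⟩

lemma comp_rch {M : Finset V} {x y : V} (h : y ∈ comp G M x) : Rch G (comp G M x) x y := by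
  rw [mem_comp] at h
  induction h with
  | refl => exact Relation.ReflTransGen.refl
  | tail h1 h2 ih =>
    refine Relation.ReflTransGen.tail ih ⟨h2.1, ?_⟩
    exact comp_step (mem_comp.2 h1) h2.1 h2.2

/-- If the set reachable from `u` through `W` has an element adjacent to `w ∈ comp M y`, and
`W ⊆ M`, then `u` is adjacent to an element of `comp M y`. -/
lemma adj_comp {W M : Finset V} (hWM : W ⊆ M) {u x w y : V} (hx : x ∈ comp G W u)
    (hxw : G.Adj x w) (hw : w ∈ comp G M y) : ∃ w' ∈ comp G M y, G.Adj u w' := by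
  rw [mem_comp] at hx
  induction hx generalizing w with
  | refl => exact ⟨w, hw, hxw⟩
  | tail h1 h2 ih => exact ih h2.1 (comp_step hw hxw.symm (hWM h2.2))

lemma conn_of_root {X : Set V} {r : V} (hr : r ∈ X)
    (h : ∀ x ∈ X, Relation.ReflTransGen (fun a b => G.Adj a b ∧ b ∈ X) r x) :
    (G.induce X).Connected := by
  rw [SimpleGraph.connected_iff_exists_forall_reachable]
  refine ⟨⟨r, hr⟩, ?_⟩
  rintro ⟨x, hx⟩
  have key : ∀ x, Relation.ReflTransGen (fun a b => G.Adj a b ∧ b ∈ X) r x →
      ∃ hx : x ∈ X, (G.induce X).Reachable ⟨r, hr⟩ ⟨x, hx⟩ := by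
    intro x hx
    induction hx with
    | refl => exact ⟨hr, SimpleGraph.Reachable.refl _⟩
    | tail h1 h2 ih =>
      obtain ⟨h3, h4⟩ := ih
      refine ⟨h2.2, h4.trans ?_⟩
      apply SimpleGraph.Adj.reachable
      simpa using h2.1
  obtain ⟨_, h2⟩ := key x (h x hx)
  exact h2

/-- No `K_{2,t}` minor: bound for the number of common contacts of two disjoint connected sets. -/
lemma k2_card {t : ℕ} (hK : ¬ HasK2Minor G t) {X Y Z : Finset V} {rx ry : V}
    (hrx : rx ∈ X) (hX : ∀ x ∈ X, Rch G X rx x) (hry : ry ∈ Y) (hY : ∀ y ∈ Y, Rch G Y ry y)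
    (hXY : Disjoint X Y) (hZX : Disjoint X Z) (hZY : Disjoint Y Z)
    (hzx : ∀ z ∈ Z, ∃ x ∈ X, G.Adj x z) (hzy : ∀ z ∈ Z, ∃ y ∈ Y, G.Adj y z) : Z.card < t := by
  by_contra hlt
  push Not at hlt
  obtain ⟨Z', hZ', hc⟩ := Finset.exists_subset_card_eq hlt
  let e := Z'.equivFinOfCardEq hc
  apply hK
  refine ⟨(X : Set V), (Y : Set V), fun i => {((e.symm i : Z') : V)}, ?_, ?_, ?_, ?_, ?_, ?_, ?_,
    ?_, ?_⟩
  · exact conn_of_root (by exact_mod_cast hrx) (fun x hx => hX x (by exact_mod_cast hx))
  · exact conn_of_root (by exact_mod_cast hry) (fun x hx => hY x (by exact_mod_cast hx))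
  · intro i
    refine conn_of_root (r := ((e.symm i : Z') : V)) rfl ?_
    intro x hx
    rw [Set.mem_singleton_iff] at hx
    rw [hx]
  · exact_mod_cast hXY
  · intro i
    rw [Set.disjoint_singleton_right]
    intro h
    exact Finset.disjoint_left.1 hZX (by exact_mod_cast h) (hZ' (e.symm i).2)
  · intro i
    rw [Set.disjoint_singleton_right]
    intro h
    exact Finset.disjoint_left.1 hZY (by exact_mod_cast h) (hZ' (e.symm i).2)
  · intro i j hij
    rw [Set.disjoint_singleton]
    intro h
    apply hij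
    have : e.symm i = e.symm j := Subtype.ext h
    exact e.symm.injective this
  · intro i
    obtain ⟨x, hx, h⟩ := hzx _ (hZ' (e.symm i).2)
    exact ⟨x, by exact_mod_cast hx, _, rfl, h⟩
  · intro i
    obtain ⟨x, hx, h⟩ := hzy _ (hZ' (e.symm i).2)
    exact ⟨x, by exact_mod_cast hx, _, rfl, h⟩

/-- The data of a fire: `F i` is the set burnt at time `i`, `A i` the set of vertices that had to
be protected in the first `i` rounds, `T` the time when the last vertex burns. -/
structure Burn (G : SimpleGraph V) (s : V) where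
  /-- burnt vertices -/
  F : ℕ → Finset V
  /-- guards -/
  A : ℕ → Finset V
  /-- duration -/
  T : ℕ
  F0 : F 0 = {s}
  A0 : A 0 = ∅
  Fmono : Monotone F
  Amono : Monotone A
  FT : ∀ i, F i ⊆ F T
  AT : ∀ i, A i ⊆ A (T + 1)
  Fne : ∀ i < T, (F (i + 1) \ F i).Nonempty
  Fstep : ∀ i, ∀ w ∈ F (i + 1), w ∈ F i ∨ ∃ u ∈ F i, G.Adj u w
  Astep : ∀ i, ∀ w ∈ A (i + 1), ∃ u ∈ F i, G.Adj u w
  out : ∀ i, ∀ x ∈ F i, ∀ w, G.Adj x w → w ∈ F (i + 1) ∨ w ∈ A (i + 1)
  disj : ∀ i j, Disjoint (F i) (A j)
  Acard : ∀ i, (A i).card ≤ i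

namespace Burn

variable {s : V} (b : Burn G s)

/-- All burnt vertices and guards. -/
def Full : Finset V := b.F b.T ∪ b.A (b.T + 1)

/-- The other vertices. -/
def W : Finset V := univ \ b.Full

/-- The vertices cut off by the guard `u`. -/
noncomputable def C (u : V) : Finset V := comp G b.W u

/-- Burnt at time `p` or guards for the first `p + 1` rounds. -/
def E (p : ℕ) : Finset V := b.F p ∪ b.A (p + 1)

open scoped Classical in
/-- Critical guards at time `p`. -/
noncomputable def Cr (p : ℕ) : Finset V :=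
  (b.A (p + 1)).filter (fun u => ∃ x ∈ b.C u, ∃ w, w ∈ b.Full ∧ w ∉ b.E p ∧ G.Adj x w)

lemma mem_Cr {p : ℕ} {u : V} : u ∈ b.Cr p ↔ u ∈ b.A (p + 1) ∧
    ∃ x ∈ b.C u, ∃ w, w ∈ b.Full ∧ w ∉ b.E p ∧ G.Adj x w := by
  simp [Cr]

/-- The number of times at which `u` is critical. -/
noncomputable def J (u : V) : ℕ := ((range b.T).filter (fun p => u ∈ b.Cr p)).card

lemma F_mem_full {i : ℕ} {w : V} (h : w ∈ b.F i) : w ∈ b.Full :=
  Finset.mem_union_left _ (b.FT i h)

lemma A_mem_full {i : ℕ} {w : V} (h : w ∈ b.A i) : w ∈ b.Full :=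
  Finset.mem_union_right _ (b.AT i h)

lemma FA {i j : ℕ} {w : V} (h : w ∈ b.F i) (h' : w ∈ b.A j) : False :=
  Finset.disjoint_left.1 (b.disj i j) h h'

lemma A_pos {d : ℕ} {u : V} (hu : u ∈ b.A d) : 1 ≤ d := by
  rcases Nat.eq_zero_or_pos d with h | h
  · subst h; rw [b.A0] at hu; simp at hu
  · exact h

lemma E_mono {p q : ℕ} (h : p ≤ q) : b.E p ⊆ b.E q := by
  unfold E
  exact Finset.union_subset_union (b.Fmono h) (b.Amono (by omega))

lemma mem_W {w : V} : w ∈ b.W ↔ w ∉ b.Full := by simp [W]

lemma Cr_lt {p : ℕ} {u : V} (hu : u ∈ b.Cr p) : p < b.T := by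
  by_contra h
  push Not at h
  rw [mem_Cr] at hu
  obtain ⟨_, x, _, w, hw, hw2, _⟩ := hu
  apply hw2
  rw [Full, Finset.mem_union] at hw
  rw [E, Finset.mem_union]
  rcases hw with hw | hw
  · exact Or.inl (b.Fmono h hw)
  · exact Or.inr (b.Amono (by omega) hw)

/-- From a guard which is not too often critical the fire does not jump too far. -/
lemma jump {a d : ℕ} {u x w : V} (hJ : b.J u ≤ a) (hu : u ∈ b.A d) (hx : x ∈ b.C u)
    (hw : w ∈ b.Full) (hxw : G.Adj x w) : w ∈ b.E (d - 1 + a) := by
  by_contra hcon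
  have hd := b.A_pos hu
  have hsub : Finset.Icc (d - 1) (d - 1 + a) ⊆ (range b.T).filter (fun p => u ∈ b.Cr p) := by
    intro p hp
    rw [Finset.mem_Icc] at hp
    have hcr : u ∈ b.Cr p := by
      rw [mem_Cr]
      refine ⟨b.Amono (by omega) hu, x, hx, w, hw, ?_, hxw⟩
      intro h
      exact hcon (b.E_mono hp.2 h)
    rw [Finset.mem_filter, Finset.mem_range]
    exact ⟨b.Cr_lt hcr, hcr⟩
  have := Finset.card_le_card hsub
  rw [Nat.card_Icc] at this
  unfold J at hJ
  omega

lemma not_Cr {p : ℕ} {u x w : V} (hu : u ∈ b.A (p + 1)) (hcr : u ∉ b.Cr p) (hx : x ∈ b.C u)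
    (hw : w ∈ b.Full) (hxw : G.Adj x w) : w ∈ b.E p := by
  by_contra hcon
  apply hcr
  rw [mem_Cr]
  exact ⟨hu, x, hx, w, hw, hcon, hxw⟩

/-- The region burnt in the modified strategy, by labels. -/
noncomputable def R (p : ℕ) (U : Finset V) (d : ℕ) : Finset V :=
  (b.F d ∩ b.F p) ∪ (U ∩ b.A d).biUnion b.C

lemma mem_R {p : ℕ} {U : Finset V} {d : ℕ} {v : V} :
    v ∈ b.R p U d ↔ (v ∈ b.F d ∧ v ∈ b.F p) ∨ ∃ u, u ∈ U ∧ u ∈ b.A d ∧ v ∈ b.C u := by
  simp [R, and_assoc]

lemma step {a p d : ℕ} {U : Finset V} (ha : 1 ≤ a)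
    (hU : ∀ u ∈ U, u ∈ b.A (p + 1) ∧ b.J u ≤ a ∧ u ∉ b.Cr p) {v w : V}
    (hv : v ∈ b.R p U d) (hvw : G.Adj v w) :
    w ∈ b.R p U (d + a) ∨ (w ∈ b.A (d + a) ∧ w ∈ b.A (p + 1) ∧ w ∉ U) ∨
      (w ∈ b.F (d + a) ∧ w ∈ b.F (p + 1) ∧ w ∉ b.F p) := by
  rw [mem_R] at hv
  rw [mem_R]
  rcases hv with ⟨hv1, hv2⟩ | ⟨u, hu1, hu2, hu3⟩
  · rcases b.out d v hv1 w hvw with h | h
    · have h' : w ∈ b.F (d + a) := b.Fmono (by omega) h
      rcases b.out p v hv2 w hvw with h2 | h2
      · by_cases h3 : w ∈ b.F p
        · exact Or.inl (Or.inl ⟨h', h3⟩)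
        · exact Or.inr (Or.inr ⟨h', h2, h3⟩)
      · exact (b.FA h h2).elim
    · have h' : w ∈ b.A (d + a) := b.Amono (by omega) h
      rcases b.out p v hv2 w hvw with h2 | h2
      · exact (b.FA h2 h).elim
      · by_cases h3 : w ∈ U
        · exact Or.inl (Or.inr ⟨w, h3, h', self_mem_comp⟩)
        · exact Or.inr (Or.inl ⟨h', h2, h3⟩)
  · obtain ⟨hU1, hU2, hU3⟩ := hU u hu1
    by_cases hw : w ∈ b.Full
    · have h1 := b.jump hU2 hu2 hu3 hw hvw
      have h2 := b.not_Cr hU1 hU3 hu3 hw hvw
      have hd := b.A_pos hu2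
      rw [E, Finset.mem_union] at h1 h2
      rcases h1 with h1 | h1
      · rcases h2 with h2 | h2
        · exact Or.inl (Or.inl ⟨b.Fmono (by omega) h1, h2⟩)
        · exact (b.FA h1 h2).elim
      · have h1' : w ∈ b.A (d + a) := b.Amono (by omega) h1
        rcases h2 with h2 | h2
        · exact (b.FA h2 h1).elim
        · by_cases h3 : w ∈ U
          · exact Or.inl (Or.inr ⟨w, h3, h1', self_mem_comp⟩)
          · exact Or.inr (Or.inl ⟨h1', h2, h3⟩)
    · refine Or.inl (Or.inr ⟨u, hu1, b.Amono (by omega) hu2, ?_⟩)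
      exact comp_step hu3 hvw (b.mem_W.2 hw)

/-- The improvement step. -/
theorem window {a Wm j l p : ℕ} (ha : 1 ≤ a) (hl : l = 2 * a * (Wm + 1)) (hp : p + 1 = j + l)
    (h1 : ∀ y, 2 * a * ((b.A (j + y) \ b.A j).filter (fun v => a < b.J v)).card ≤ y)
    (h2 : (b.Cr p).card + (b.F (p + 1) \ b.F p).card ≤ Wm)
    (h3 : ∑ u ∈ b.A (j + l) \ b.A j, (b.C u).card < (b.F b.T \ b.F p).card) :
    ∃ S' : Finset V, Feas G s S' ∧ ∀ i, (fireF G s S' i).card < (b.F b.T).card := by
  classical
  set U : Finset V := (b.A (p + 1) \ b.A j).filter (fun u => b.J u ≤ a ∧ u ∉ b.Cr p) with hUdef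
  have hl2 : 2 ≤ l := by
    rw [hl]; nlinarith
  have hjp : j ≤ p := by omega
  have hmemU : ∀ u, u ∈ U ↔ (u ∈ b.A (p + 1) ∧ u ∉ b.A j) ∧ b.J u ≤ a ∧ u ∉ b.Cr p := by
    intro u; rw [hUdef, Finset.mem_filter, Finset.mem_sdiff]
  have hU : ∀ u ∈ U, u ∈ b.A (p + 1) ∧ b.J u ≤ a ∧ u ∉ b.Cr p := by
    intro u hu
    rw [hmemU] at hu
    exact ⟨hu.1.1, hu.2⟩
  set S' : Finset V := (b.A (p + 1) \ U) ∪ (b.F (p + 1) \ b.F p) with hS'
  have hmemS : ∀ w, w ∈ S' ↔ (w ∈ b.A (p + 1) ∧ w ∉ U) ∨ (w ∈ b.F (p + 1) ∧ w ∉ b.F p) := by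
    intro w; rw [hS', Finset.mem_union, Finset.mem_sdiff, Finset.mem_sdiff]
  -- the region is disjoint from `S'`
  have hRS : ∀ d w, w ∈ b.R p U d → w ∈ S' → False := by
    intro d w hw hwS
    rw [mem_R] at hw
    rw [hmemS] at hwS
    rcases hw with ⟨_, hw⟩ | ⟨u, hu1, _, hu3⟩
    · rcases hwS with h | h
      · exact b.FA hw h.1
      · exact h.2 hw
    · rcases comp_mem_or hu3 with h | h
      · subst h
        rcases hwS with h' | h'
        · exact h'.2 hu1
        · exact b.FA h'.1 (hU _ hu1).1
      · rw [mem_W] at h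
        apply h
        rcases hwS with h' | h'
        · exact b.A_mem_full h'.1
        · exact b.F_mem_full h'.1
  -- the first `j` rounds
  have fact1 : ∀ i ≤ j, fireF G s S' i ⊆ b.F i := by
    intro i
    induction i with
    | zero => intro _; rw [b.F0]; simp [fireF]
    | succ i ih =>
      intro hi w hw
      rw [mem_fireF_succ] at hw
      rcases hw with hw | ⟨hw1, u, hu, huw⟩
      · exact b.Fmono (Nat.le_succ i) (ih (by omega) hw)
      · rcases b.out i u (ih (by omega) hu) w huw with h | h
        · exact h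
        · exfalso
          apply hw1
          rw [hmemS]
          left
          refine ⟨b.Amono (by omega) h, ?_⟩
          rw [hmemU]
          intro h'
          exact h'.1.2 (b.Amono hi h)
  -- later rounds
  have fact2 : ∀ m, fireF G s S' (j + m) ⊆ b.R p U (j + a * m) := by
    intro m
    induction m with
    | zero =>
      intro w hw
      have h := fact1 j le_rfl (by simpa using hw)
      rw [mem_R]
      left
      exact ⟨by simpa using h, b.Fmono hjp h⟩
    | succ m ih =>
      intro w hw
      rw [← Nat.add_assoc, mem_fireF_succ] at hw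
      have hR : ∀ d, b.R p U d ⊆ b.R p U (d + a) := by
        intro d v hv
        rw [mem_R] at hv ⊢
        rcases hv with ⟨h, h'⟩ | ⟨u, h, h', h''⟩
        · exact Or.inl ⟨b.Fmono (by omega) h, h'⟩
        · exact Or.inr ⟨u, h, b.Amono (by omega) h', h''⟩
      have heq : j + a * (m + 1) = j + a * m + a := by ring
      rw [heq]
      rcases hw with hw | ⟨hw1, u, hu, huw⟩
      · exact hR _ (ih hw)
      · rcases b.step ha hU (ih hu) huw with h | ⟨_, h, h'⟩ | ⟨_, h, h'⟩
        · exact h
        · exact (hw1 ((hmemS w).2 (Or.inl ⟨h, h'⟩))).elim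
        · exact (hw1 ((hmemS w).2 (Or.inr ⟨h, h'⟩))).elim
  have hs : s ∉ S' := by
    have hsF : ∀ i, s ∈ b.F i := by
      intro i
      apply b.Fmono (Nat.zero_le i)
      rw [b.F0]; simp
    rw [hmemS]
    rintro (h | h)
    · exact b.FA (hsF 0) h.1
    · exact h.2 (hsF p)
  refine ⟨S', ⟨hs, ?_⟩, ?_⟩
  · -- the deadlines are met
    intro i
    cases i with
    | zero => simp [thr]
    | succ i =>
      rcases Nat.lt_or_ge i j with hi | hi
      · have hsub : thr G s S' (i + 1) ⊆ b.A (i + 1) := by
          intro w hw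
          rw [mem_thr_succ] at hw
          obtain ⟨hw1, u, hu, huw⟩ := hw
          rcases b.out i u (fact1 i (by omega) hu) w huw with h | h
          · exfalso
            rw [hmemS] at hw1
            rcases hw1 with h' | h'
            · exact b.FA h h'.1
            · exact h'.2 (b.Fmono (by omega) h)
          · exact h
        exact (Finset.card_le_card hsub).trans (b.Acard _)
      · obtain ⟨m, rfl⟩ := Nat.exists_eq_add_of_le hi
        set X : Finset V := if l < a * (m + 2) then b.Cr p ∪ (b.F (p + 1) \ b.F p) else ∅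
          with hX
        have hsub : thr G s S' (j + m + 1) ⊆ b.A j ∪
            ((b.A (j + a * (m + 1)) \ b.A j).filter (fun v => a < b.J v) ∪ X) := by
          intro w hw
          rw [mem_thr_succ] at hw
          obtain ⟨hw1, u, hu, huw⟩ := hw
          have heq : j + a * (m + 1) = j + a * m + a := by ring
          rw [Finset.mem_union, Finset.mem_union, Finset.mem_filter, Finset.mem_sdiff]
          rcases b.step ha hU (fact2 m hu) huw with h | ⟨h0, h, h'⟩ | ⟨h0, h, h'⟩
          · exact (hRS _ _ h hw1).elim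
          · by_cases hwj : w ∈ b.A j
            · exact Or.inl hwj
            · right
              by_cases hJ : a < b.J w
              · left
                rw [heq]
                exact ⟨⟨h0, hwj⟩, hJ⟩
              · right
                have hcr : w ∈ b.Cr p := by
                  by_contra hcr
                  exact h' ((hmemU w).2 ⟨⟨h, hwj⟩, by omega, hcr⟩)
                have hlt : l < a * (m + 2) := by
                  by_contra hlt
                  push Not at hlt
                  have hcr' := hcr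
                  rw [mem_Cr] at hcr'
                  obtain ⟨_, x, hx, w', hw', hw'2, hxw'⟩ := hcr'
                  have h5 := b.jump (a := a) (by omega) h0 hx hw' hxw'
                  apply hw'2
                  refine b.E_mono ?_ h5
                  have : a * (m + 2) = a * m + a + a := by ring
                  omega
                rw [hX, if_pos hlt]
                exact Finset.mem_union_left _ hcr
          · right; right
            have hlt : l < a * (m + 2) := by
              by_contra hlt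
              push Not at hlt
              apply h'
              refine b.Fmono ?_ h0
              have : a * (m + 2) = a * m + a + a := by ring
              omega
            rw [hX, if_pos hlt]
            exact Finset.mem_union_right _ (Finset.mem_sdiff.2 ⟨h, h'⟩)
        have hc := Finset.card_le_card hsub
        have hc1 := Finset.card_union_le (b.A j)
            ((b.A (j + a * (m + 1)) \ b.A j).filter (fun v => a < b.J v) ∪ X)
        have hc2 := Finset.card_union_le
            ((b.A (j + a * (m + 1)) \ b.A j).filter (fun v => a < b.J v)) X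
        have hc3 := b.Acard j
        have hc4 := h1 (a * (m + 1))
        have hc5 : 2 * ((b.A (j + a * (m + 1)) \ b.A j).filter (fun v => a < b.J v)).card ≤
            m + 1 := by
          have : a * (2 * ((b.A (j + a * (m + 1)) \ b.A j).filter (fun v => a < b.J v)).card) ≤
            a * (m + 1) := by
            calc _ = 2 * a *
                  ((b.A (j + a * (m + 1)) \ b.A j).filter (fun v => a < b.J v)).card := by ring
              _ ≤ _ := hc4
          exact Nat.le_of_mul_le_mul_left this (by omega)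
        have hc6 : 2 * X.card ≤ m + 1 := by
          by_cases hlt : l < a * (m + 2)
          · have hXc : X.card ≤ Wm := by
              rw [hX, if_pos hlt]
              exact (Finset.card_union_le _ _).trans h2
            have : 2 * (Wm + 1) < m + 2 := by
              rw [hl] at hlt
              have : a * (2 * (Wm + 1)) < a * (m + 2) := by
                calc a * (2 * (Wm + 1)) = 2 * a * (Wm + 1) := by ring
                  _ < _ := hlt
              exact Nat.lt_of_mul_lt_mul_left this
            omega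
          · rw [hX, if_neg hlt]; simp
        omega
  · -- fewer vertices burn
    intro i
    have hsub : fireF G s S' i ⊆ b.F p ∪ (b.A (j + l) \ b.A j).biUnion b.C := by
      have h4 : fireF G s S' i ⊆ fireF G s S' (j + i) := fireF_mono (by omega)
      intro w hw
      have h5 := fact2 i (h4 hw)
      rw [mem_R] at h5
      rw [Finset.mem_union, Finset.mem_biUnion]
      rcases h5 with ⟨_, h⟩ | ⟨u, hu, _, h⟩
      · exact Or.inl h
      · right
        refine ⟨u, ?_, h⟩
        rw [hmemU] at hu
        rw [Finset.mem_sdiff, ← hp]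
        exact hu.1
    have h6 := Finset.card_le_card hsub
    have h7 := Finset.card_union_le (b.F p) ((b.A (j + l) \ b.A j).biUnion b.C)
    have h8 : ((b.A (j + l) \ b.A j).biUnion b.C).card ≤
        ∑ u ∈ b.A (j + l) \ b.A j, (b.C u).card := Finset.card_biUnion_le
    have h9 : (b.F b.T \ b.F p).card + (b.F p).card = (b.F b.T).card :=
      Finset.card_sdiff_add_card_eq_card (b.FT p)
    omega

end Burn

end

end Pool.Agent.Lib.MP_711ea9_lc
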