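import Mathlib

set_option autoImplicit false

/-!
# The Firefighter problem, minors `K_{2,t}`, and a small programming language
-/

namespace Pool.Agent.Lib.MP_711ea9_lc

/-! ## The Firefighter process -/

/-- A state of the process: the set of vertices on fire and the set of protected vertices. -/
structure Config (V : Type*) where
  /-- the vertices on fire -/
  fire : Set V
  /-- the protected vertices -/
  prot : Set V

section process

variable {V : Type*} (G : SimpleGraph V)

/-- The process has ended: no unprotected vertex that is not on fire has a neighbour on fire. -/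
def Ended (c : Config V) : Prop :=
  ∀ w, w ∉ c.fire → w ∉ c.prot → ∀ u ∈ c.fire, ¬ G.Adj u w

/-- One round: first the vertex `v` becomes protected, then every vertex that is neither on fire
nor protected and has a neighbour on fire catches fire. -/
def nextConfig (c : Config V) (v : V) : Config V where
  fire := c.fire ∪ {w | w ∉ insert v c.prot ∧ ∃ u ∈ c.fire, G.Adj u w}
  prot := insert v c.prot

/-- The states that can occur when the fire starts at `s`. A round is played only if the process
has not ended, and the vertex protected in it is neither on fire nor protected. -/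
inductive Reachable (s : V) : Config V → Prop
  | start : Reachable s ⟨{s}, ∅⟩
  | round (c : Config V) (v : V) : Reachable s c → ¬ Ended G c → v ∉ c.fire → v ∉ c.prot →
      Reachable s (nextConfig G c v)

/-- The Firefighter problem: some strategy leads to an ended process in which at most `k`
vertices are (hence ever were) on fire. -/
def Firefighter (s : V) (k : ℕ) : Prop :=
  ∃ c, Reachable G s c ∧ Ended G c ∧ c.fire.ncard ≤ k

/-- `G` has a `K_{2,t}` minor: there are pairwise disjoint connected vertex sets
`X`, `Y`, `Z 0, …, Z (t-1)` such that `G` has an edge between `X` and each `Z i` and an edge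
between `Y` and each `Z i`. -/
def HasK2Minor (t : ℕ) : Prop :=
  ∃ (X Y : Set V) (Z : Fin t → Set V),
    (G.induce X).Connected ∧ (G.induce Y).Connected ∧ (∀ i, (G.induce (Z i)).Connected) ∧
    Disjoint X Y ∧ (∀ i, Disjoint X (Z i)) ∧ (∀ i, Disjoint Y (Z i)) ∧
    (∀ i j, i ≠ j → Disjoint (Z i) (Z j)) ∧
    (∀ i, ∃ x ∈ X, ∃ z ∈ Z i, G.Adj x z) ∧ (∀ i, ∃ y ∈ Y, ∃ z ∈ Z i, G.Adj y z)

end process

end Pool.Agent.Lib.MP_711ea9_lc
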