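import Pool.Agent.Lib.MP_711ea9_lc.Defs
import Pool.Agent.Lib.MP_711ea9_lc.Lang

set_option autoImplicit false

/-!
# Solving the Firefighter problem in subexponential time
-/

namespace Pool.Agent.Lib.MP_711ea9_lc

open scoped Classical in
/-- The memory at the start of the computation: variable 0 holds `n`, variable 1 holds `s`, and
array 0 holds the adjacency matrix, row by row. All other entries are zero. -/
noncomputable def input {n : ℕ} (G : SimpleGraph (Fin n)) (s : Fin n) : Store where
  var := fun x => if x = 0 then n else if x = 1 then (s : ℕ) else 0
  arr := fun a i => if a = 0 ∧ ∃ u v : Fin n, G.Adj u v ∧ i = u * n + v then 1 else 0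

/-- The Firefighter problem restricted to the graphs in the class `C` can be solved in time
`2 ^ o(n)`: there are one program and a function `f` with `f n / n → 0` such that, for every graph
`G` in the class with vertex set `{0, …, n - 1}` and every vertex `s`, the program stops within
time `2 ^ f n` and returns in variable 0 the least number of vertices that are ever on fire, that
is, the number which is at most `k` if and only if `(G, s, k)` is a yes-instance. -/
def SubexpSolvable (C : ∀ n : ℕ, SimpleGraph (Fin n) → Prop) : Prop :=
  ∃ (p : Cmd) (f : ℕ → ℕ),
    Filter.Tendsto (fun n : ℕ => (f n : ℝ) / (n : ℝ)) Filter.atTop (nhds 0) ∧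
    ∀ (n : ℕ) (G : SimpleGraph (Fin n)) (s : Fin n), C n G →
      p.cost (input G s) ≤ 2 ^ f n ∧
      ∀ k : ℕ, Firefighter G s k ↔ (p.exec (input G s)).var 0 ≤ k

end Pool.Agent.Lib.MP_711ea9_lc
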