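import Pool.Agent.Lib.MP_711ea9_lc.Time

set_option autoImplicit false

/-!
# Outerplanar graphs have no `K_{2,3}` minor
-/

namespace Pool.Agent.Lib.MP_711ea9_lc

/-- `G` is outerplanar: its vertices can be placed on a circle (cut open to a line) in such a way
that no two edges, drawn as chords, cross. -/
def Outerplanar {V : Type*} (G : SimpleGraph V) : Prop :=
  ∃ pos : V → ℕ, Function.Injective pos ∧
    ∀ a b c d : V, pos a < pos b → pos b < pos c → pos c < pos d → G.Adj a c → ¬ G.Adj b d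

section

variable {V : Type*} {G : SimpleGraph V}

/-- In a connected set a predicate which is not constant changes along an edge. -/
lemma exists_change {X : Set V} (hX : (G.induce X).Connected) (φ : V → Prop) {x y : V}
    (hx : x ∈ X) (hy : y ∈ X) (hφx : ¬ φ x) (hφy : φ y) :
    ∃ u ∈ X, ∃ v ∈ X, G.Adj u v ∧ ¬ φ u ∧ φ v := by
  have hr : (G.induce X).Reachable ⟨x, hx⟩ ⟨y, hy⟩ := hX.preconnected _ _
  obtain ⟨w⟩ := hr
  have key : ∀ (a b : X) (w : (G.induce X).Walk a b), ¬ φ a → φ b →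
      ∃ u ∈ X, ∃ v ∈ X, G.Adj u v ∧ ¬ φ u ∧ φ v := by
    intro a b w
    induction w with
    | nil => intro h1 h2; exact (h1 h2).elim
    | @cons a c b hac w ih =>
      intro h1 h2
      by_cases hc : φ c
      · exact ⟨a, a.2, c, c.2, by simpa using hac, h1, hc⟩
      · exact ih hc h2
  exact key _ _ w hφx hφy

/-- Two disjoint connected sets do not alternate. -/
lemma no_alternation {pos : V → ℕ} (hinj : Function.Injective pos)
    (hnc : ∀ a b c d : V, pos a < pos b → pos b < pos c → pos c < pos d → G.Adj a c →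
      ¬ G.Adj b d) {P Q : Set V} (hP : (G.induce P).Connected) (hQ : (G.induce Q).Connected)
    (hPQ : Disjoint P Q) {a b c d : V} (ha : a ∈ P) (hb : b ∈ Q) (hc : c ∈ P) (hd : d ∈ Q)
    (h1 : pos a < pos b) (h2 : pos b < pos c) (h3 : pos c < pos d) : False := by
  have hne : ∀ p ∈ P, ∀ q ∈ Q, pos p ≠ pos q := by
    intro p hp q hq h
    have : p = q := hinj h
    subst this
    exact Set.disjoint_left.1 hPQ hp hq
  obtain ⟨p, hp, p', hp', hpp, hφ1, hφ2⟩ := exists_change hP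
    (fun x => pos b < pos x ∧ pos x < pos d) ha hc (by omega) ⟨h2, h3⟩
  have e1 := hne p hp b hb
  have e2 := hne p hp d hd
  rcases Nat.lt_or_ge (pos p) (pos b) with hcase | hcase
  · -- `p < b < p' < d`
    obtain ⟨q, hq, q', hq', hqq, hψ1, hψ2⟩ := exists_change hQ
      (fun x => pos p < pos x ∧ pos x < pos p') hd hb (by omega) ⟨hcase, hφ2.1⟩
    have e3 := hne p hp q hq
    have e4 := hne p' hp' q hq
    rcases Nat.lt_or_ge (pos q) (pos p) with h | h
    · exact hnc q p q' p' h hψ2.1 hψ2.2 hqq hpp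
    · exact hnc p q' p' q hψ2.1 hψ2.2 (by omega) hpp hqq.symm
  · -- `b < p' < d < p`
    have hlt : pos d < pos p := by omega
    obtain ⟨q, hq, q', hq', hqq, hψ1, hψ2⟩ := exists_change hQ
      (fun x => pos p' < pos x ∧ pos x < pos p) hb hd (by omega) ⟨hφ2.2, hlt⟩
    have e3 := hne p hp q hq
    have e4 := hne p' hp' q hq
    rcases Nat.lt_or_ge (pos q) (pos p') with h | h
    · exact hnc q p' q' p h hψ2.1 hψ2.2 hqq hpp.symm
    · exact hnc p' q' p q hψ2.1 hψ2.2 (by omega) hpp.symm hqq.symm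

/-- Outerplanar graphs have no `K_{2,3}` minor. -/
theorem Outerplanar.no_minor (hG : Outerplanar G) : ¬ HasK2Minor G 3 := by
  rintro ⟨X, Y, Z, hX, hY, hZ, hXY, hXZ, hYZ, hZZ, hxz, hyz⟩
  obtain ⟨pos, hinj, hnc⟩ := hG
  obtain ⟨⟨x, hx⟩⟩ := hX.nonempty
  obtain ⟨⟨y, hy⟩⟩ := hY.nonempty
  have hzex : ∀ i, ∃ z, z ∈ Z i := by
    intro i
    obtain ⟨⟨z, hz⟩⟩ := (hZ i).nonempty
    exact ⟨z, hz⟩
  choose z hz using hzex
  have hXZc : ∀ i, (G.induce (X ∪ Z i)).Connected := by
    intro i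
    obtain ⟨u, hu, v, hv, h⟩ := hxz i
    exact SimpleGraph.connected_induce_union hX.preconnected (hZ i).preconnected hu hv h
  have hYZc : ∀ i, (G.induce (Y ∪ Z i)).Connected := by
    intro i
    obtain ⟨u, hu, v, hv, h⟩ := hyz i
    exact SimpleGraph.connected_induce_union hY.preconnected (hZ i).preconnected hu hv h
  have hdis : ∀ i j, i ≠ j → Disjoint (X ∪ Z i) (Y ∪ Z j) := by
    intro i j hij
    rw [Set.disjoint_union_left, Set.disjoint_union_right, Set.disjoint_union_right]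
    exact ⟨⟨hXY, hXZ j⟩, (hYZ i).symm, hZZ i j hij⟩
  have hxy : pos x ≠ pos y := by
    intro h
    have := hinj h
    subst this
    exact Set.disjoint_left.1 hXY hx hy
  have hxzi : ∀ i, pos x ≠ pos (z i) := by
    intro i h
    have := hinj h
    exact Set.disjoint_left.1 (hXZ i) hx (this ▸ hz i)
  have hyzi : ∀ i, pos y ≠ pos (z i) := by
    intro i h
    have := hinj h
    exact Set.disjoint_left.1 (hYZ i) hy (this ▸ hz i)
  have hzz : ∀ i j, i ≠ j → pos (z i) ≠ pos (z j) := by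
    intro i j hij h
    have := hinj h
    exact Set.disjoint_left.1 (hZZ i j hij) (hz i) (this ▸ hz j)
  -- the two arcs
  have key : ∀ i j, i ≠ j →
      (((pos x < pos (z i) ∧ pos (z i) < pos y) ∨ (pos y < pos (z i) ∧ pos (z i) < pos x)) ↔
      ¬ ((pos x < pos (z j) ∧ pos (z j) < pos y) ∨ (pos y < pos (z j) ∧ pos (z j) < pos x))) := by
    intro i j hij
    have A : ∀ i j, i ≠ j → ∀ a b c d : V, a ∈ X ∪ Z i → b ∈ Y ∪ Z j → c ∈ X ∪ Z i →
        d ∈ Y ∪ Z j → ¬ (pos a < pos b ∧ pos b < pos c ∧ pos c < pos d) := by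
      intro i j hij a b c d ha hb hc hd h
      exact no_alternation hinj hnc (hXZc i) (hYZc j) (hdis i j hij) ha hb hc hd h.1 h.2.1 h.2.2
    have B : ∀ i j, i ≠ j → ∀ a b c d : V, a ∈ Y ∪ Z j → b ∈ X ∪ Z i → c ∈ Y ∪ Z j →
        d ∈ X ∪ Z i → ¬ (pos a < pos b ∧ pos b < pos c ∧ pos c < pos d) := by
      intro i j hij a b c d ha hb hc hd h
      exact no_alternation hinj hnc (hYZc j) (hXZc i) (hdis i j hij).symm ha hb hc hd
        h.1 h.2.1 h.2.2
    have mx : ∀ i, x ∈ X ∪ Z i := fun i => Or.inl hx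
    have my : ∀ i, y ∈ Y ∪ Z i := fun i => Or.inl hy
    have mz : ∀ i, z i ∈ X ∪ Z i := fun i => Or.inr (hz i)
    have mz' : ∀ i, z i ∈ Y ∪ Z i := fun i => Or.inr (hz i)
    have c1 := hxzi i
    have c2 := hxzi j
    have c3 := hyzi i
    have c4 := hyzi j
    have c5 := hzz i j hij
    have out : ∀ w : ℕ, w ≠ pos x → w ≠ pos y →
        ¬ ((pos x < w ∧ w < pos y) ∨ (pos y < w ∧ w < pos x)) →
        (w < pos x ∧ w < pos y) ∨ (pos x < w ∧ pos y < w) := by
      intro w h1 h2 h3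
      omega
    constructor
    · rintro (⟨h1, h2⟩ | ⟨h1, h2⟩) (⟨h3, h4⟩ | ⟨h3, h4⟩)
      · rcases Nat.lt_or_gt_of_ne c5 with h | h
        · exact A j i hij.symm x (z i) (z j) y (mx j) (mz' i) (mz j) (my i) ⟨h1, h, h4⟩
        · exact A i j hij x (z j) (z i) y (mx i) (mz' j) (mz i) (my j) ⟨h3, h, h2⟩
      · omega
      · omega
      · rcases Nat.lt_or_gt_of_ne c5 with h | h
        · exact B i j hij y (z i) (z j) x (my j) (mz i) (mz' j) (mx i) ⟨h1, h, h4⟩
        · exact B j i hij.symm y (z j) (z i) x (my i) (mz j) (mz' i) (mx j) ⟨h3, h, h2⟩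
    · intro hj
      by_contra hi
      have hi' := out _ c1.symm c3.symm hi
      have hj' := out _ c2.symm c4.symm hj
      rcases Nat.lt_or_gt_of_ne hxy with hlt | hlt
      · rcases hi' with ⟨h1, h2⟩ | ⟨h1, h2⟩ <;> rcases hj' with ⟨h3, h4⟩ | ⟨h3, h4⟩
        · rcases Nat.lt_or_gt_of_ne c5 with h | h
          · exact A i j hij (z i) (z j) x y (mz i) (mz' j) (mx i) (my j) ⟨h, h3, hlt⟩
          · exact A j i hij.symm (z j) (z i) x y (mz j) (mz' i) (mx j) (my i) ⟨h, h1, hlt⟩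
        · exact B j i hij.symm (z i) x y (z j) (mz' i) (mx j) (my i) (mz j) ⟨h1, hlt, h4⟩
        · exact B i j hij (z j) x y (z i) (mz' j) (mx i) (my j) (mz i) ⟨h3, hlt, h2⟩
        · rcases Nat.lt_or_gt_of_ne c5 with h | h
          · exact A i j hij x y (z i) (z j) (mx i) (my j) (mz i) (mz' j) ⟨hlt, h2, h⟩
          · exact A j i hij.symm x y (z j) (z i) (mx j) (my i) (mz j) (mz' i) ⟨hlt, h4, h⟩
      · rcases hi' with ⟨h1, h2⟩ | ⟨h1, h2⟩ <;> rcases hj' with ⟨h3, h4⟩ | ⟨h3, h4⟩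
        · rcases Nat.lt_or_gt_of_ne c5 with h | h
          · exact B j i hij.symm (z i) (z j) y x (mz' i) (mz j) (my i) (mx j) ⟨h, h4, hlt⟩
          · exact B i j hij (z j) (z i) y x (mz' j) (mz i) (my j) (mx i) ⟨h, h2, hlt⟩
        · exact A i j hij (z i) y x (z j) (mz i) (my j) (mx i) (mz' j) ⟨h2, hlt, h3⟩
        · exact A j i hij.symm (z j) y x (z i) (mz j) (my i) (mx j) (mz' i) ⟨h4, hlt, h1⟩
        · rcases Nat.lt_or_gt_of_ne c5 with h | h
          · exact B j i hij.symm y x (z i) (z j) (my i) (mx j) (mz' i) (mz j) ⟨hlt, h1, h⟩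
          · exact B i j hij y x (z j) (z i) (my j) (mx i) (mz' j) (mz i) ⟨hlt, h3, h⟩
  have k1 := key 0 1 (by decide)
  have k2 := key 0 2 (by decide)
  have k3 := key 1 2 (by decide)
  tauto

end

/-- The Firefighter problem on outerplanar graphs is solvable in time `2 ^ o(n)`. -/
theorem subexp_outerplanar : SubexpSolvable (fun _ G => Outerplanar G) := by
  obtain ⟨p, f, hf, h⟩ := subexp 3
  exact ⟨p, f, hf, fun n G s hG => h n G s hG.no_minor⟩

end Pool.Agent.Lib.MP_711ea9_lc
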