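import Pool.Agent.Lib.MP_711ea9_lc.Defs

set_option autoImplicit false

/-!
# Strategies of the Firefighter process as vertex sets
-/

namespace Pool.Agent.Lib.MP_711ea9_lc

open Finset

section

variable {V : Type*} [Fintype V] [DecidableEq V] (G : SimpleGraph V) (s : V) (S : Finset V)

open scoped Classical in
/-- The vertices burnt after `i` rounds, if exactly the vertices of `S` are unavailable. -/
noncomputable def fireF : ℕ → Finset V
  | 0 => {s}
  | i + 1 => fireF i ∪ univ.filter (fun w => w ∉ S ∧ ∃ u ∈ fireF i, G.Adj u w)

open scoped Classical in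
/-- The vertices of `S` which have to be protected in the first `i` rounds. -/
noncomputable def thr : ℕ → Finset V
  | 0 => ∅
  | i + 1 => S.filter (fun w => ∃ u ∈ fireF G s S i, G.Adj u w)

/-- The set `S` can be protected in time. -/
def Feas : Prop := s ∉ S ∧ ∀ i, (thr G s S i).card ≤ i

variable {G s S}

lemma mem_fireF_succ {i : ℕ} {w : V} :
    w ∈ fireF G s S (i + 1) ↔ w ∈ fireF G s S i ∨ (w ∉ S ∧ ∃ u ∈ fireF G s S i, G.Adj u w) := by
  simp [fireF]

lemma mem_thr_succ {i : ℕ} {w : V} :
    w ∈ thr G s S (i + 1) ↔ w ∈ S ∧ ∃ u ∈ fireF G s S i, G.Adj u w := by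
  simp [thr]

lemma fireF_mono_succ (i : ℕ) : fireF G s S i ⊆ fireF G s S (i + 1) := by
  intro w hw
  rw [mem_fireF_succ]; exact Or.inl hw

lemma fireF_mono : Monotone (fireF G s S) := monotone_nat_of_le_succ fireF_mono_succ

lemma thr_mono_succ (i : ℕ) : thr G s S i ⊆ thr G s S (i + 1) := by
  cases i with
  | zero => simp [thr]
  | succ i =>
    intro w hw
    rw [mem_thr_succ] at hw ⊢
    obtain ⟨h1, u, hu, h2⟩ := hw
    exact ⟨h1, u, fireF_mono_succ i hu, h2⟩

lemma thr_mono : Monotone (thr G s S) := monotone_nat_of_le_succ thr_mono_succ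

lemma thr_subset (i : ℕ) : thr G s S i ⊆ S := by
  cases i with
  | zero => simp [thr]
  | succ i => intro w hw; rw [mem_thr_succ] at hw; exact hw.1

lemma source_mem (i : ℕ) : s ∈ fireF G s S i := by
  have : fireF G s S 0 ⊆ fireF G s S i := fireF_mono (Nat.zero_le i)
  exact this (by simp [fireF])

lemma fireF_disj (hs : s ∉ S) (i : ℕ) : ∀ w ∈ fireF G s S i, w ∉ S := by
  induction i with
  | zero => intro w hw; simp [fireF] at hw; rw [hw]; exact hs
  | succ i ih =>
    intro w hw
    rw [mem_fireF_succ] at hw
    rcases hw with hw | hw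
    · exact ih w hw
    · exact hw.1

/-- From a reachable state to a vertex set. -/
lemma reach_fire {c : Config V} (hc : Reachable G s c) :
    c.fire.Nonempty ∧ s ∈ c.fire ∧
    ∀ P : Finset V, c.prot ⊆ (P : Set V) → (∀ w ∈ c.fire, w ∉ P) →
      ((fireF G s P c.prot.ncard : Finset V) : Set V) = c.fire ∧
      ∀ j ≤ c.prot.ncard, (thr G s P j).card ≤ j := by
  induction hc with
  | start =>
    refine ⟨⟨s, by simp⟩, by simp, ?_⟩
    intro P hP hd
    simp [fireF, thr]
  | round c v hc hE hv1 hv2 ih =>
    obtain ⟨ih0, ih1, ih⟩ := ih
    refine ⟨⟨s, Or.inl ih1⟩, Or.inl ih1, ?_⟩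
    intro P hP hd
    have hcard : (nextConfig G c v).prot.ncard = c.prot.ncard + 1 := by
      simp only [nextConfig]
      rw [Set.ncard_insert_of_notMem hv2 (Set.toFinite _)]
    have hP1 : c.prot ⊆ (P : Set V) := fun x hx => hP (by simp [nextConfig, hx])
    have hd1 : ∀ w ∈ c.fire, w ∉ P := fun w hw => hd w (Or.inl hw)
    obtain ⟨h1, h2⟩ := ih P hP1 hd1
    have hmem : ∀ w, w ∈ fireF G s P c.prot.ncard ↔ w ∈ c.fire := by
      intro w; rw [← h1]; simp
    rw [hcard]
    constructor
    · ext w
      simp only [Finset.mem_coe, mem_fireF_succ, hmem]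
      constructor
      · rintro (h | ⟨h3, u, hu, h4⟩)
        · exact Or.inl h
        · refine Or.inr ⟨fun h5 => h3 (by exact_mod_cast hP h5), u, hu, h4⟩
      · rintro (h | ⟨h3, u, hu, h4⟩)
        · exact Or.inl h
        · exact Or.inr ⟨hd w (Or.inr ⟨h3, u, hu, h4⟩), u, hu, h4⟩
    · intro j hj
      rcases Nat.lt_or_ge c.prot.ncard j with h | h
      · have hj' : j = c.prot.ncard + 1 := by omega
        subst hj'
        have hsub : ((thr G s P (c.prot.ncard + 1) : Finset V) : Set V) ⊆
            (nextConfig G c v).prot := by
          intro w hw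
          rw [Finset.mem_coe, mem_thr_succ] at hw
          obtain ⟨h3, u, hu, h4⟩ := hw
          by_contra h5
          exact hd w (Or.inr ⟨h5, u, (hmem u).1 hu, h4⟩) h3
        have := Set.ncard_le_ncard hsub (Set.toFinite _)
        rw [hcard, Set.ncard_coe_finset] at this
        exact this
      · exact h2 j h

lemma fireF_stable_of {i : ℕ} (h : fireF G s S (i + 1) = fireF G s S i) (j : ℕ) (hj : i ≤ j) :
    fireF G s S j = fireF G s S i := by
  induction j, hj using Nat.le_induction with
  | base => rfl
  | succ j hj ih =>
    rw [← h]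
    ext w
    rw [mem_fireF_succ, mem_fireF_succ, ih]

open scoped Classical in
/-- From a feasible vertex set to a strategy. -/
lemma exists_strategy (hF : Feas G s S) :
    ∀ m : ℕ, ∀ c : Config V, Reachable G s c → c.prot.ncard + m = Fintype.card V + 1 →
      c.fire ⊆ (fireF G s S c.prot.ncard : Set V) →
      (∀ j, ((thr G s S j).filter (fun w => w ∉ c.prot)).card ≤ j - c.prot.ncard) →
      ∃ c', Reachable G s c' ∧ Ended G c' ∧ c'.fire ⊆ (fireF G s S (Fintype.card V) : Set V) := by
  intro m
  induction m with
  | zero =>
    intro c hc hm _ _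
    exfalso
    have : c.prot.ncard ≤ Fintype.card V := by
      rw [← Nat.card_eq_fintype_card, ← Set.ncard_univ]
      exact Set.ncard_le_ncard (Set.subset_univ _) (Set.toFinite _)
    omega
  | succ m ih =>
    intro c hc hm h1 h2
    by_cases hE : Ended G c
    · refine ⟨c, hc, hE, fun w hw => ?_⟩
      have h3 : c.prot.ncard ≤ Fintype.card V := by omega
      exact fireF_mono h3 (h1 hw)
    · -- choose the vertex to be protected
      obtain ⟨v, hv1, hv2, hv3⟩ : ∃ v, v ∉ c.fire ∧ v ∉ c.prot ∧
          ∀ j, ((thr G s S j).filter (fun w => w ∉ insert v c.prot)).card ≤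
            j - (c.prot.ncard + 1) := by
        by_cases hall : ∀ j, (thr G s S j).filter (fun w => w ∉ c.prot) = ∅
        · have : ∃ w, w ∉ c.fire ∧ w ∉ c.prot := by
            unfold Ended at hE
            push Not at hE
            obtain ⟨w, hw1, hw2, -⟩ := hE
            exact ⟨w, hw1, hw2⟩
          obtain ⟨v, hv1, hv2⟩ := this
          refine ⟨v, hv1, hv2, fun j => ?_⟩
          have : (thr G s S j).filter (fun w => w ∉ insert v c.prot) = ∅ := by
            rw [← Finset.subset_empty, ← hall j]
            intro w hw
            rw [Finset.mem_filter] at hw ⊢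
            exact ⟨hw.1, fun h => hw.2 (Or.inr h)⟩
          rw [this]; simp
        · push Not at hall
          have hex : ∃ j, ((thr G s S j).filter (fun w => w ∉ c.prot)).Nonempty := by
            obtain ⟨j, hj⟩ := hall
            exact ⟨j, hj⟩
          set j0 := Nat.find hex with hj0
          have hne : ((thr G s S j0).filter (fun w => w ∉ c.prot)).Nonempty := Nat.find_spec hex
          have hmin : ∀ j < j0, (thr G s S j).filter (fun w => w ∉ c.prot) = ∅ := by
            intro j hj
            have := Nat.find_min hex hj
            rwa [Finset.not_nonempty_iff_eq_empty] at this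
          obtain ⟨v, hv⟩ := hne
          rw [Finset.mem_filter] at hv
          refine ⟨v, ?_, hv.2, ?_⟩
          · intro hvf
            have h3 : v ∈ fireF G s S c.prot.ncard := by exact_mod_cast h1 hvf
            exact fireF_disj hF.1 _ v h3 (thr_subset _ hv.1)
          · intro j
            rcases Nat.lt_or_ge j j0 with hj | hj
            · have : (thr G s S j).filter (fun w => w ∉ insert v c.prot) = ∅ := by
                rw [← Finset.subset_empty, ← hmin j hj]
                intro w hw
                rw [Finset.mem_filter] at hw ⊢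
                exact ⟨hw.1, fun h => hw.2 (Or.inr h)⟩
              rw [this]; simp
            · have hsub : insert v ((thr G s S j).filter (fun w => w ∉ insert v c.prot)) ⊆
                  (thr G s S j).filter (fun w => w ∉ c.prot) := by
                intro w hw
                rw [Finset.mem_insert] at hw
                rcases hw with rfl | hw
                · rw [Finset.mem_filter]
                  exact ⟨thr_mono hj hv.1, hv.2⟩
                · rw [Finset.mem_filter] at hw ⊢
                  exact ⟨hw.1, fun h => hw.2 (Or.inr h)⟩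
              have h4 := Finset.card_le_card hsub
              rw [Finset.card_insert_of_notMem (by simp)] at h4
              have h5 := h2 j
              omega
      have hcard : (nextConfig G c v).prot.ncard = c.prot.ncard + 1 := by
        simp only [nextConfig]
        rw [Set.ncard_insert_of_notMem hv2 (Set.toFinite _)]
      apply ih (nextConfig G c v) (Reachable.round c v hc hE hv1 hv2)
      · rw [hcard]; omega
      · rw [hcard]
        intro w hw
        rw [Finset.mem_coe, mem_fireF_succ]
        rcases hw with hw | ⟨hw1, u, hu, hw2⟩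
        · left; exact_mod_cast h1 hw
        · right
          have hu' : u ∈ fireF G s S c.prot.ncard := by exact_mod_cast h1 hu
          refine ⟨?_, u, hu', hw2⟩
          intro hwS
          have h6 : w ∈ (thr G s S (c.prot.ncard + 1)).filter (fun w => w ∉ insert v c.prot) := by
            rw [Finset.mem_filter, mem_thr_succ]
            exact ⟨⟨hwS, u, hu', hw2⟩, hw1⟩
          have h7 := hv3 (c.prot.ncard + 1)
          have h8 := Finset.card_pos.2 ⟨w, h6⟩
          omega
      · rw [hcard]
        intro j
        refine le_trans (Finset.card_le_card ?_) (hv3 j)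
        intro w hw
        rw [Finset.mem_filter] at hw ⊢
        exact hw

/-- The Firefighter problem in terms of vertex sets. -/
theorem firefighter_iff (k : ℕ) :
    Firefighter G s k ↔ ∃ S : Finset V, Feas G s S ∧ (fireF G s S (Fintype.card V)).card ≤ k := by
  constructor
  · rintro ⟨c, hc, hE, hk⟩
    classical
    set P : Finset V := c.prot.toFinset with hP
    obtain ⟨hne, hs, h⟩ := reach_fire hc
    have hdis : ∀ w ∈ c.fire, w ∉ P := by
      have : ∀ c : Config V, Reachable G s c → ∀ w ∈ c.fire, w ∉ c.prot := by
        intro c hc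
        induction hc with
        | start => simp
        | round c v hc hE hv1 hv2 ih =>
          intro w hw
          rcases hw with hw | hw
          · intro h
            rcases h with h | h
            · exact hv1 (h ▸ hw)
            · exact ih w hw h
          · exact hw.1
      intro w hw
      rw [hP, Set.mem_toFinset]
      exact this c hc w hw
    obtain ⟨h1, h2⟩ := h P (by simp [hP]) hdis
    have hmem : ∀ w, w ∈ fireF G s P c.prot.ncard ↔ w ∈ c.fire := by
      intro w; rw [← h1]; simp
    have hst : fireF G s P (c.prot.ncard + 1) = fireF G s P c.prot.ncard := by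
      ext w
      rw [mem_fireF_succ]
      constructor
      · rintro (h | ⟨h3, u, hu, h4⟩)
        · exact h
        · by_contra h5
          refine hE w ?_ ?_ u ((hmem u).1 hu) h4
          · rwa [← hmem]
          · intro h6; exact h3 (by simp [hP, h6])
      · exact Or.inl
    have hPcard : P.card = c.prot.ncard := by
      rw [hP, Set.ncard_eq_toFinset_card']
    have hle : c.prot.ncard ≤ Fintype.card V := by
      rw [← hPcard]; exact Finset.card_le_univ P
    refine ⟨P, ⟨hdis s hs, ?_⟩, ?_⟩
    · intro i
      rcases Nat.le_total i c.prot.ncard with hi | hi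
      · exact h2 i hi
      · calc (thr G s P i).card ≤ P.card := Finset.card_le_card (thr_subset i)
          _ = c.prot.ncard := hPcard
          _ ≤ i := hi
    · rw [fireF_stable_of hst _ hle]
      have : ((fireF G s P c.prot.ncard : Finset V) : Set V).ncard ≤ k := by
        rw [h1]; exact hk
      rwa [Set.ncard_coe_finset] at this
  · rintro ⟨S, hF, hk⟩
    obtain ⟨c', h1, h2, h3⟩ := exists_strategy hF (Fintype.card V + 1) ⟨{s}, ∅⟩ Reachable.start
      (by simp) (by simp [fireF]) (by
        intro j
        simpa using hF.2 j)
    refine ⟨c', h1, h2, ?_⟩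
    have h4 := Set.ncard_le_ncard h3 (Set.toFinite _)
    rw [Set.ncard_coe_finset] at h4
    omega

end

end Pool.Agent.Lib.MP_711ea9_lc
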