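import Pool.Agent.Lib.MP_711ea9_lc.Mg.G013

set_option autoImplicit false

/-!
# The running time of the program
-/

namespace Pool.Agent.Lib.MP_711ea9_lc

open Cmd

lemma bd_skip (ρ : ℕ → ℕ) : skip.bd ρ = 1 := rfl
lemma bd_set (ρ : ℕ → ℕ) (x : ℕ) (e : Expr) : (set x e).bd ρ = 1 + e.size := rfl
lemma bd_put (ρ : ℕ → ℕ) (x : ℕ) (i e : Expr) : (put x i e).bd ρ = 1 + i.size + e.size := rfl
lemma bd_seq (ρ : ℕ → ℕ) (c d : Cmd) : (seq c d).bd ρ = c.bd ρ + d.bd ρ := rfl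
lemma bd_ite (ρ : ℕ → ℕ) (e : Expr) (c d : Cmd) :
    (ite e c d).bd ρ = 1 + e.size + (c.bd ρ + d.bd ρ) := rfl
lemma bd_loop (ρ : ℕ → ℕ) (x : ℕ) (c : Cmd) :
    (loop (.var x) c).bd ρ = 2 + ρ x * (1 + c.bd ρ) := rfl

lemma size2' : Nat.size 2 = 2 := by decide
lemma size3' : Nat.size 3 = 2 := by decide

lemma bd_pLog (ρ : ℕ → ℕ) : pLog.bd ρ ≤ 100 + 100 * ρ 0 := by
  simp only [pLog, bd_skip, bd_set, bd_seq, bd_ite, bd_loop, Expr.size, Nat.size_zero,
    Nat.size_one, size2']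
  omega

lemma bd_pSqrt (ρ : ℕ → ℕ) : pSqrt.bd ρ ≤ 100 + 100 * ρ 2 := by
  simp only [pSqrt, bd_skip, bd_set, bd_seq, bd_ite, bd_loop, Expr.size, Nat.size_zero,
    Nat.size_one]
  omega

lemma bd_pLen (ρ : ℕ → ℕ) : pLen.bd ρ ≤ 100 + 100 * ρ 4 := by
  simp only [pLen, bd_set, bd_seq, bd_loop, Expr.size, Nat.size_zero, Nat.size_one]
  omega

lemma bd_pPow (ρ : ℕ → ℕ) : pPow.bd ρ ≤ 100 + 100 * ρ 8 := by
  simp only [pPow, bd_set, bd_seq, bd_loop, Expr.size, Nat.size_one]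
  omega

lemma bd_pBody (ρ : ℕ → ℕ) : 1 + pBody.bd ρ ≤ 1000 * (ρ 0 + ρ 8 + 1) ^ 3 := by
  simp only [pBody, pClear, pDecode, pDigit, pCheck, pRound, pHeat, pHeat1, pHeat2, pSpread,
    pCount, bd_skip, bd_set, bd_put, bd_seq, bd_ite, bd_loop, Expr.size, Nat.size_zero,
    Nat.size_one, size3']
  generalize ρ 0 = X
  generalize ρ 8 = Y
  have h1 : X ≤ X + Y + 1 := by omega
  have h2 : Y ≤ X + Y + 1 := by omega
  have h3 : 1 ≤ X + Y + 1 := by omega
  generalize X + Y + 1 = Z at *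
  have hZ : Z ≤ Z ^ 3 := Nat.le_self_pow (by norm_num) Z
  have hZ2 : Z ^ 2 ≤ Z ^ 3 := Nat.pow_le_pow_right h3 (by norm_num)
  have a1 : X ≤ Z ^ 3 := h1.trans hZ
  have a2 : X ^ 2 ≤ Z ^ 3 := (Nat.pow_le_pow_left h1 2).trans hZ2
  have a3 : X ^ 3 ≤ Z ^ 3 := Nat.pow_le_pow_left h1 3
  have a4 : Y ≤ Z ^ 3 := h2.trans hZ
  have a5 : 1 ≤ Z ^ 3 := h3.trans hZ
  ring_nf
  omega

/-- Steps of the preparation. -/
lemma steps_pInit (c n : ℕ) (σ : Store) (hn : σ.var 0 = n) (hn0 : n ≠ 0) :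
    (pInit c).steps σ ≤ 1000 + Nat.size c + 500 * (n + lenOf c n) := by
  set σ1 := pLog.exec σ with hσ1
  set σ2 := (Cmd.set 2 (.div (.var 2) (.const c))).exec σ1 with hσ2
  set σ3 := pSqrt.exec σ2 with hσ3
  set σ4 := pLen.exec σ3 with hσ4
  set σ5 := pPow.exec σ4 with hσ5
  have hst : (pInit c).steps σ = pLog.steps σ + ((Cmd.set 2 (.div (.var 2) (.const c))).steps σ1 +
      (pSqrt.steps σ2 + (pLen.steps σ3 + (pPow.steps σ4 + ((Cmd.set 21 (.var 0)).steps σ5 +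
        (Cmd.set 10 (.const 0)).steps ((Cmd.set 21 (.var 0)).exec σ5)))))) := rfl
  have h1 : σ1.var 2 = Nat.log 2 n := pLog_spec σ n hn hn0
  have h2 : σ2.var 2 = Nat.log 2 n / c := by
    rw [hσ2]; simp [exec, Expr.eval, h1]
  have h3 := pSqrt_spec σ2
  rw [h2, ← hσ3] at h3
  have h4 := pLen_spec σ3
  rw [← hσ4] at h4
  have e3 : σ3.var 0 = n := by
    rw [hσ3, frame_var _ _ _ rfl, hσ2, frame_var _ _ _ rfl, hσ1, frame_var _ _ _ rfl, hn]
  have g4 : σ4.var 8 = lenOf c n := by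
    rw [h4, e3, h3.2, h3.1]; rfl
  have hΛ : Nat.log 2 n / c ≤ n := (Nat.div_le_self _ _).trans (Nat.log_le_self 2 n)
  have hb : σ3.var 4 ≤ n := by
    rw [h3.1]
    have := (Nat.sqrt_le_self (Nat.log 2 n / c)).trans hΛ
    omega
  have s1 := steps_le (fun _ => n) (fun x => x = 0) pLog σ (by simp [pLog, Cmd.lp])
    (by rintro x rfl; rfl) (by rintro x rfl; exact hn)
  have s2 := steps_le (fun _ => Nat.log 2 n / c) (fun x => x = 2) pSqrt σ2 (by simp [pSqrt, Cmd.lp])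
    (by rintro x rfl; rfl) (by rintro x rfl; exact h2)
  have s3 := steps_le (fun _ => σ3.var 4) (fun x => x = 4) pLen σ3 (by simp [pLen, Cmd.lp])
    (by rintro x rfl; rfl) (by rintro x rfl; rfl)
  have s4 := steps_le (fun _ => lenOf c n) (fun x => x = 8) pPow σ4 (by simp [pPow, Cmd.lp])
    (by rintro x rfl; rfl) (by rintro x rfl; exact g4)
  have t1 := bd_pLog (fun _ => n)
  have t2 := bd_pSqrt (fun _ => Nat.log 2 n / c)
  have t3 := bd_pLen (fun _ => σ3.var 4)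
  have t4 := bd_pPow (fun _ => lenOf c n)
  have u1 : (Cmd.set 2 (.div (.var 2) (.const c))).steps σ1 = 1 + (1 + (1 + Nat.size c) + 1) := rfl
  have u2 : (Cmd.set 21 (.var 0)).steps σ5 = 2 := rfl
  have u3 : (Cmd.set 10 (.const 0)).steps ((Cmd.set 21 (.var 0)).exec σ5) = 2 := by
    simp [steps, Expr.size]
  rw [hst, u1, u2, u3]
  omega

lemma steps_pMain (c n : ℕ) (σ : Store) (hn : σ.var 0 = n) (hn0 : n ≠ 0) :
    (pMain c).steps σ ≤ (3000 + Nat.size c) * ((n + lenOf c n + 1) ^ 3 * 3 ^ lenOf c n) := by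
  set σ1 := (pInit c).exec σ with hσ1
  have hst : (pMain c).steps σ = (pInit c).steps σ + ((loop (.var 9) pBody).steps σ1 + 2) := rfl
  obtain ⟨i0, i1, i4, i8, i9, i10, i21, ia⟩ := pInit_spec c σ n hn hn0
  rw [← hσ1] at i0 i8 i9
  set ρ : ℕ → ℕ := fun x => if x = 0 then n else if x = 8 then lenOf c n else 3 ^ lenOf c n
    with hρ
  have s1 := steps_le ρ (fun x => x = 9 ∨ x = 0 ∨ x = 8) (loop (.var 9) pBody) σ1
    (by simp [pBody, pClear, pDecode, pDigit, pCheck, pRound, pHeat, pHeat1, pHeat2, pSpread,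
      pCount, Cmd.lp])
    (by rintro x (rfl | rfl | rfl) <;> rfl)
    (by rintro x (rfl | rfl | rfl) <;> simp [hρ, i0, i8, i9])
  have s2 := steps_pInit c n σ hn hn0
  have s3 := bd_pBody ρ
  rw [bd_loop] at s1
  have r0 : ρ 0 = n := by simp [hρ]
  have r8 : ρ 8 = lenOf c n := by simp [hρ]
  have r9 : ρ 9 = 3 ^ lenOf c n := by simp [hρ]
  rw [r0, r8] at s3
  rw [r9] at s1
  rw [hst]
  set Z := n + lenOf c n + 1 with hZ
  set P := 3 ^ lenOf c n with hP
  have hP1 : 1 ≤ P := Nat.one_le_iff_ne_zero.2 (by positivity)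
  have hZ1 : 1 ≤ Z := by omega
  have hZ3 : Z ≤ Z ^ 3 := Nat.le_self_pow (by norm_num) Z
  have h1 : P * (1 + pBody.bd ρ) ≤ P * (1000 * Z ^ 3) := Nat.mul_le_mul_left _ s3
  have h2 : Z ^ 3 ≤ Z ^ 3 * P := Nat.le_mul_of_pos_right _ hP1
  have h3 : P * (1000 * Z ^ 3) = 1000 * (Z ^ 3 * P) := by ring
  have h4 : 1 ≤ Z ^ 3 * P := (hZ1.trans hZ3).trans h2
  have h5 : Nat.size c ≤ Nat.size c * (Z ^ 3 * P) := Nat.le_mul_of_pos_right _ h4
  have h6 : (3000 + Nat.size c) * (Z ^ 3 * P) = 3000 * (Z ^ 3 * P) + Nat.size c * (Z ^ 3 * P) := by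
    ring
  rw [h6]
  have h7 : n + lenOf c n ≤ Z ^ 3 * P := by omega
  omega

lemma bdd_input {n : ℕ} (G : SimpleGraph (Fin n)) (s : Fin n) : Bdd (input G s) (n + 1) := by
  have h1 : n < 2 ^ (n + 1) :=
    Nat.lt_two_pow_self.trans_le (Nat.pow_le_pow_right (by norm_num) (by omega))
  have h2 : 1 < 2 ^ (n + 1) := by
    have : 2 ^ 1 ≤ 2 ^ (n + 1) := Nat.pow_le_pow_right (by norm_num) (by omega)
    omega
  constructor
  · intro x
    simp only [input]
    have := s.2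
    split_ifs <;> omega
  · intro a i
    simp only [input]
    split_ifs <;> omega

/-- The exponent of the running time. -/
def expo (c n : ℕ) : ℕ :=
  2 * (3000 + Nat.size c + 3 * Nat.size (n + lenOf c n + 1) + 2 * lenOf c n) + 2

lemma cost_le {n : ℕ} (c : ℕ) (G : SimpleGraph (Fin n)) (s : Fin n) :
    (pMain c).cost (input G s) ≤ 2 ^ expo c n := by
  have hn0 : n ≠ 0 := by
    rintro rfl
    exact s.elim0
  have h1 := ((pMain c).bound (bdd_input G s)).2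
  have h2 := steps_pMain c n (input G s) (by simp [input]) hn0
  set K := (pMain c).steps (input G s) with hK
  set Z := n + lenOf c n + 1 with hZ
  set e := 3000 + Nat.size c + 3 * Nat.size Z + 2 * lenOf c n with he
  have h3 : K ≤ 2 ^ e := by
    refine h2.trans ?_
    have a1 : 3000 + Nat.size c ≤ 2 ^ (3000 + Nat.size c) := Nat.lt_two_pow_self.le
    have a2 : Z ^ 3 ≤ 2 ^ (3 * Nat.size Z) := by
      calc Z ^ 3 ≤ (2 ^ Nat.size Z) ^ 3 := Nat.pow_le_pow_left (Nat.lt_size_self Z).le 3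
        _ = _ := by rw [← pow_mul, Nat.mul_comm]
    have a3 : 3 ^ lenOf c n ≤ 2 ^ (2 * lenOf c n) := by
      calc 3 ^ lenOf c n ≤ 4 ^ lenOf c n := Nat.pow_le_pow_left (by norm_num) _
        _ = (2 ^ 2) ^ lenOf c n := by norm_num
        _ = _ := by rw [← pow_mul]
    calc (3000 + Nat.size c) * (Z ^ 3 * 3 ^ lenOf c n)
        ≤ 2 ^ (3000 + Nat.size c) * (2 ^ (3 * Nat.size Z) * 2 ^ (2 * lenOf c n)) :=
          Nat.mul_le_mul a1 (Nat.mul_le_mul a2 a3)
      _ = 2 ^ e := by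
          rw [← pow_add, ← pow_add, he]
          congr 1
          omega
  have h4 : n + 2 ≤ 2 ^ e + 2 ^ e := by
    have b1 : Z < 2 ^ Nat.size Z := Nat.lt_size_self Z
    have b2 : 2 ^ Nat.size Z ≤ 2 ^ e := Nat.pow_le_pow_right (by norm_num) (by omega)
    omega
  have h5 : expo c n = e + (e + 2) := by rw [expo, he, hZ]; ring
  clear_value e
  calc (pMain c).cost (input G s) ≤ K * (n + 1 + K + 1) := h1
    _ ≤ 2 ^ e * (2 ^ e + 2 ^ e + 2 ^ e + 2 ^ e) := by
        apply Nat.mul_le_mul h3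
        omega
    _ = 2 ^ expo c n := by
        rw [h5, pow_add, pow_add]; ring

lemma bOf_sq_le (c n : ℕ) (hn : 1 ≤ n) : bOf c n * bOf c n ≤ n := by
  unfold bOf
  rcases le_total 1 (Nat.sqrt (Nat.log 2 n / c)) with h | h
  · rw [max_eq_right h]
    calc _ ≤ Nat.log 2 n / c := Nat.sqrt_le _
      _ ≤ Nat.log 2 n := Nat.div_le_self _ _
      _ ≤ n := Nat.log_le_self 2 n
  · rw [max_eq_left h]; omega

lemma bOf_mono (c : ℕ) : Monotone (bOf c) := by
  intro m n h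
  unfold bOf
  apply max_le_max le_rfl
  apply Nat.sqrt_le_sqrt
  apply Nat.div_le_div_right
  exact Nat.log_mono_right h

lemma bOf_tendsto (c : ℕ) (hc : 1 ≤ c) :
    Filter.Tendsto (fun n => bOf c n) Filter.atTop Filter.atTop := by
  apply Filter.tendsto_atTop_atTop_of_monotone (bOf_mono c)
  intro B
  refine ⟨2 ^ (c * (B * B)), ?_⟩
  unfold bOf
  rw [Nat.log_pow (by norm_num), Nat.mul_div_cancel_left _ hc, Nat.sqrt_eq]
  exact le_max_right _ _

lemma lenOf_le (c n : ℕ) (hn : 1 ≤ n) : (lenOf c n : ℝ) / n ≤ 3 / bOf c n := by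
  have hb : 1 ≤ bOf c n := bOf_pos c n
  have hbn := bOf_sq_le c n hn
  unfold lenOf
  set b := bOf c n with hb'
  have hbr : (0 : ℝ) < b := by exact_mod_cast hb
  have hnr : (0 : ℝ) < n := by exact_mod_cast hn
  rw [div_le_div_iff₀ hnr hbr]
  push_cast
  have h1 : ((n / b : ℕ) : ℝ) ≤ (n : ℝ) / b := Nat.cast_div_le
  have h2 : ((n / (b * b) : ℕ) : ℝ) ≤ (n : ℝ) / (b * b) := by
    have := @Nat.cast_div_le ℝ _ _ _ n (b * b)
    push_cast at this
    exact this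
  have h3 : (b : ℝ) * b ≤ n := by exact_mod_cast hbn
  have h4 : ((n / b : ℕ) : ℝ) * b ≤ n := by
    calc ((n / b : ℕ) : ℝ) * b ≤ (n : ℝ) / b * b := by gcongr
      _ = n := by field_simp
  have h5 : ((n / (b * b) : ℕ) : ℝ) * (b * b) ≤ n := by
    calc ((n / (b * b) : ℕ) : ℝ) * (b * b) ≤ (n : ℝ) / (b * b) * (b * b) := by gcongr
      _ = n := by field_simp
  nlinarith

lemma lenOf_le' (c n : ℕ) (hn : 1 ≤ n) : lenOf c n ≤ 3 * n := by
  have h := lenOf_le c n hn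
  have hb : 1 ≤ bOf c n := bOf_pos c n
  have hbr : (1 : ℝ) ≤ bOf c n := by exact_mod_cast hb
  have hnr : (0 : ℝ) < n := by exact_mod_cast hn
  have h2 : (lenOf c n : ℝ) / n ≤ 3 := by
    refine h.trans ?_
    rw [div_le_iff₀ (by linarith)]
    linarith
  rw [div_le_iff₀ hnr] at h2
  exact_mod_cast h2

lemma size_le (c n : ℕ) (hn : 1 ≤ n) : Nat.size (n + lenOf c n + 1) ≤ Nat.log 2 n + 4 := by
  rw [Nat.size_le]
  have h1 := lenOf_le' c n hn
  have h2 : n < 2 ^ (Nat.log 2 n + 1) := Nat.lt_pow_succ_log_self (by norm_num) n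
  have h3 : 2 ^ (Nat.log 2 n + 4) = 8 * 2 ^ (Nat.log 2 n + 1) := by ring
  omega

lemma expo_tendsto (c : ℕ) (hc : 1 ≤ c) :
    Filter.Tendsto (fun n : ℕ => (expo c n : ℝ) / (n : ℝ)) Filter.atTop (nhds 0) := by
  set A : ℝ := 2 * (3000 + Nat.size c + 12) + 2 with hA
  have hup : ∀ n : ℕ, 1 ≤ n → (expo c n : ℝ) / (n : ℝ) ≤
      A / n + 6 / Real.log 2 * (Real.log n / n) + 12 / (bOf c n : ℝ) := by
    intro n hn
    have hnr : (0 : ℝ) < n := by exact_mod_cast hn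
    have h1 := lenOf_le c n hn
    have h2 : (Nat.size (n + lenOf c n + 1) : ℝ) ≤ Nat.log 2 n + 4 := by
      exact_mod_cast size_le c n hn
    have h3 : (Nat.log 2 n : ℝ) ≤ Real.log n / Real.log 2 := by
      have := Real.natLog_le_logb n 2
      rw [Real.logb] at this
      exact_mod_cast this
    have h4 : (expo c n : ℝ) = 2 * (3000 + Nat.size c + 3 * Nat.size (n + lenOf c n + 1) +
        2 * lenOf c n) + 2 := by
      unfold expo; push_cast; ring
    rw [h4]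
    have h5 : (2 * (3000 + (Nat.size c : ℝ) + 3 * Nat.size (n + lenOf c n + 1) +
        2 * lenOf c n) + 2) / n ≤ (A + 6 * (Real.log n / Real.log 2) + 4 * lenOf c n) / n := by
      apply div_le_div_of_nonneg_right _ hnr.le
      rw [hA]
      linarith
    refine h5.trans ?_
    have h6 : (A + 6 * (Real.log n / Real.log 2) + 4 * lenOf c n) / n =
        A / n + 6 / Real.log 2 * (Real.log n / n) + 4 * ((lenOf c n : ℝ) / n) := by
      ring
    rw [h6]
    have h7 : 4 * ((lenOf c n : ℝ) / n) ≤ 4 * (3 / bOf c n) := by gcongr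
    have h8 : 4 * (3 / (bOf c n : ℝ)) = 12 / (bOf c n : ℝ) := by ring
    linarith
  have l1 : Filter.Tendsto (fun n : ℕ => A / (n : ℝ)) Filter.atTop (nhds 0) :=
    tendsto_const_div_atTop_nhds_zero_nat A
  have l2 : Filter.Tendsto (fun n : ℕ => 6 / Real.log 2 * (Real.log n / n)) Filter.atTop
      (nhds 0) := by
    have h := Real.tendsto_pow_log_div_mul_add_atTop 1 0 1 one_ne_zero
    have h' := (h.comp tendsto_natCast_atTop_atTop).const_mul (6 / Real.log 2)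
    simpa using h'
  have l3 : Filter.Tendsto (fun n : ℕ => 12 / (bOf c n : ℝ)) Filter.atTop (nhds 0) :=
    (tendsto_const_div_atTop_nhds_zero_nat 12).comp (bOf_tendsto c hc)
  have l : Filter.Tendsto (fun n : ℕ => A / (n : ℝ) + 6 / Real.log 2 * (Real.log n / n) +
      12 / (bOf c n : ℝ)) Filter.atTop (nhds 0) := by
    have := (l1.add l2).add l3
    simpa using this
  refine squeeze_zero' ?_ ?_ l
  · exact Filter.Eventually.of_forall (fun n => by positivity)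
  · filter_upwards [Filter.eventually_ge_atTop 1] with n hn using hup n hn

/-- The Firefighter problem on graphs without `K_{2,t}` minor is solvable in time `2 ^ o(n)`. -/
theorem subexp (t : ℕ) : SubexpSolvable (fun _ G => ¬ HasK2Minor G t) := by
  refine ⟨pMain (80 * (t + 1)), expo (80 * (t + 1)), expo_tendsto _ (by omega), ?_⟩
  intro n G s hK
  refine ⟨cost_le _ G s, ?_⟩
  intro k
  exact correct G s t (fun h => hK h.of_succ) k

end Pool.Agent.Lib.MP_711ea9_lc
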